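import Mathlib

/-!
# Poisson algebras and Poisson Hopf algebras (MP_c108b5_al)
-/

set_option autoImplicit false

open scoped TensorProduct
open Coalgebra Bialgebra HopfAlgebra

namespace R641.PH

universe u v w

/-- A Poisson bracket on a commutative `k`-algebra `A`. -/
structure Poisson (k : Type u) (A : Type v) [CommRing k] [CommRing A] [Algebra k A] where
  /-- the bracket -/
  br : A →ₗ[k] A →ₗ[k] A
  alt : ∀ a : A, br a a = 0
  jacobi : ∀ a b c : A, br a (br b c) + br b (br c a) + br c (br a b) = 0
  leibniz : ∀ a b c : A, br a (b * c) = br a b * c + b * br a c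

namespace Poisson

variable {k : Type u} {A : Type v} {B : Type w} [CommRing k] [CommRing A] [Algebra k A]
  [CommRing B] [Algebra k B]

variable (p : Poisson k A) (q : Poisson k B)

theorem skew (a b : A) : p.br a b = - p.br b a := by
  have h := p.alt (a + b)
  simp only [map_add, LinearMap.add_apply, p.alt, zero_add, add_zero] at h
  exact eq_neg_of_add_eq_zero_right h

theorem leibniz_left (a b c : A) : p.br (a * b) c = a * p.br b c + b * p.br a c := by
  rw [p.skew, p.leibniz, p.skew c a, p.skew c b]; ring

theorem br_one (a : A) : p.br a 1 = 0 := by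
  have h := p.leibniz a 1 1
  simp only [mul_one, one_mul] at h
  have : p.br a 1 + 0 = p.br a 1 + p.br a 1 := by rw [add_zero]; exact h
  exact (add_left_cancel this).symm

theorem br_algebraMap (a : A) (r : k) : p.br a (algebraMap k A r) = 0 := by
  rw [Algebra.algebraMap_eq_smul_one, map_smul, p.br_one, smul_zero]

theorem br_algebraMap_left (a : A) (r : k) : p.br (algebraMap k A r) a = 0 := by
  rw [p.skew, p.br_algebraMap, neg_zero]

/-- The zero bracket. -/
def zero (k : Type u) (A : Type v) [CommRing k] [CommRing A] [Algebra k A] : Poisson k A where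
  br := 0
  alt := by simp
  jacobi := by simp
  leibniz := by simp

/-- The negative bracket. -/
def neg : Poisson k A where
  br := - p.br
  alt := by intro a; simp [p.alt]
  jacobi := by
    intro a b c
    simp only [LinearMap.neg_apply, map_neg, neg_neg]
    exact p.jacobi a b c
  leibniz := by intro a b c; simp only [LinearMap.neg_apply, p.leibniz]; ring

@[simp] theorem neg_br (a b : A) : p.neg.br a b = - p.br a b := rfl

/-- The bracket on the tensor product:
`{a ⊗ b, c ⊗ d} = {a, c} ⊗ b d + a c ⊗ {b, d}`. -/
noncomputable def tbr : (A ⊗[k] B) →ₗ[k] (A ⊗[k] B) →ₗ[k] (A ⊗[k] B) :=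
  TensorProduct.map₂ p.br (LinearMap.mul k B) + TensorProduct.map₂ (LinearMap.mul k A) q.br

theorem tbr_tmul (a c : A) (b d : B) :
    tbr p q (a ⊗ₜ b) (c ⊗ₜ d) = p.br a c ⊗ₜ (b * d) + (a * c) ⊗ₜ q.br b d := by
  simp [tbr]

/-- the left inclusion -/
noncomputable abbrev iL : A →ₐ[k] A ⊗[k] B := Algebra.TensorProduct.includeLeft

/-- the right inclusion -/
noncomputable abbrev iR : B →ₐ[k] A ⊗[k] B := Algebra.TensorProduct.includeRight

theorem tmul_eq (a : A) (b : B) :
    (a ⊗ₜ[k] b : A ⊗[k] B) = iL a * iR b := by
  simp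

theorem tbr_skew (x y : A ⊗[k] B) : tbr p q x y = - tbr p q y x := by
  induction x with
  | zero => simp
  | add x₁ x₂ h₁ h₂ => simp only [map_add, LinearMap.add_apply, h₁, h₂]; abel
  | tmul a b =>
    induction y with
    | zero => simp
    | add y₁ y₂ h₁ h₂ => simp only [map_add, LinearMap.add_apply, h₁, h₂]; abel
    | tmul c d =>
      rw [tbr_tmul, tbr_tmul, p.skew a c, q.skew b d, mul_comm a c, mul_comm b d,
        TensorProduct.neg_tmul, TensorProduct.tmul_neg]
      abel

theorem tbr_alt (x : A ⊗[k] B) : tbr p q x x = 0 := by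
  induction x with
  | zero => simp
  | tmul a b => rw [tbr_tmul, p.alt, q.alt]; simp
  | add x y hx hy =>
    simp only [map_add, LinearMap.add_apply, hx, hy]
    rw [tbr_skew p q x y]; simp

theorem tbr_jacobi (x y z : A ⊗[k] B) :
    tbr p q x (tbr p q y z) + tbr p q y (tbr p q z x) + tbr p q z (tbr p q x y) = 0 := by
  induction x with
  | zero => simp
  | add x₁ x₂ h₁ h₂ =>
    simp only [map_add, LinearMap.add_apply]
    rw [← add_zero (0 : A ⊗[k] B)]
    nth_rewrite 1 [← h₁]
    rw [← h₂]; abel
  | tmul a b =>
    induction y with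
    | zero => simp
    | add x₁ x₂ h₁ h₂ =>
      simp only [map_add, LinearMap.add_apply]
      rw [← add_zero (0 : A ⊗[k] B)]
      nth_rewrite 1 [← h₁]
      rw [← h₂]; abel
    | tmul c d =>
      induction z with
      | zero => simp
      | add x₁ x₂ h₁ h₂ =>
        simp only [map_add, LinearMap.add_apply]
        rw [← add_zero (0 : A ⊗[k] B)]
        nth_rewrite 1 [← h₁]
        rw [← h₂]; abel
      | tmul e f =>
        have hA := congrArg (iL (k := k) (A := A) (B := B)) (p.jacobi a c e)
        have hB := congrArg (iR (k := k) (A := A) (B := B)) (q.jacobi b d f)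
        simp only [tbr_tmul, map_add, p.leibniz, q.leibniz]
        simp only [tmul_eq, map_mul, map_add, map_zero] at hA hB ⊢
        rw [p.skew a e, p.skew c a, p.skew e c, q.skew b f, q.skew d b, q.skew f d]
        simp only [map_neg]
        linear_combination (iR b * iR d * iR f) * hA + (iL a * iL c * iL e) * hB

theorem tbr_leibniz (x y z : A ⊗[k] B) :
    tbr p q x (y * z) = tbr p q x y * z + y * tbr p q x z := by
  induction x with
  | zero => simp
  | add x₁ x₂ h₁ h₂ => simp only [map_add, LinearMap.add_apply, h₁, h₂]; ring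
  | tmul a b =>
    induction y with
    | zero => simp
    | add x₁ x₂ h₁ h₂ => simp only [map_add, h₁, h₂, add_mul]; ring
    | tmul c d =>
      induction z with
      | zero => simp
      | add x₁ x₂ h₁ h₂ => simp only [map_add, h₁, h₂, mul_add]; ring
      | tmul e f =>
        simp only [tbr_tmul, Algebra.TensorProduct.tmul_mul_tmul, p.leibniz, q.leibniz]
        simp only [tmul_eq, map_mul, map_add]
        ring

/-- The Poisson structure on the tensor product. -/
noncomputable def tensor : Poisson k (A ⊗[k] B) where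
  br := tbr p q
  alt := tbr_alt p q
  jacobi := tbr_jacobi p q
  leibniz := tbr_leibniz p q

variable {A' B' C : Type*} [CommRing A'] [Algebra k A'] [CommRing B'] [Algebra k B']
  [CommRing C] [Algebra k C]

/-- morphisms of Poisson algebras -/
def IsP (p : Poisson k A) (q : Poisson k B) (φ : A →ₐ[k] B) : Prop :=
  ∀ x y : A, φ (p.br x y) = q.br (φ x) (φ y)

omit q in
theorem IsP.comp {p : Poisson k A} {q : Poisson k B} {r : Poisson k C} {φ : A →ₐ[k] B}
    {ψ : B →ₐ[k] C} (hψ : IsP q r ψ) (hφ : IsP p q φ) : IsP p r (ψ.comp φ) := by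
  intro x y
  simp only [AlgHom.comp_apply]
  rw [hφ, hψ]

theorem isP_id : IsP p p (AlgHom.id k A) := fun _ _ => rfl

omit p q in
theorem isP_tmap {p : Poisson k A} {q : Poisson k B} {p' : Poisson k A'} {q' : Poisson k B'}
    {φ : A →ₐ[k] A'} {ψ : B →ₐ[k] B'} (hφ : IsP p p' φ) (hψ : IsP q q' ψ) :
    IsP (p.tensor q) (p'.tensor q') (Algebra.TensorProduct.map φ ψ) := by
  intro x y
  change Algebra.TensorProduct.map φ ψ (tbr p q x y) = tbr p' q' _ _
  induction x with
  | zero => simp
  | add x₁ x₂ h₁ h₂ => simp only [map_add, LinearMap.add_apply, h₁, h₂]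
  | tmul a b =>
    induction y with
    | zero => simp
    | add x₁ x₂ h₁ h₂ => simp only [map_add, h₁, h₂]
    | tmul c d =>
      simp only [tbr_tmul, map_add, Algebra.TensorProduct.map_tmul, map_mul, hφ a c, hψ b d]

theorem isP_assoc (r : Poisson k C) :
    IsP ((p.tensor q).tensor r) (p.tensor (q.tensor r))
      (Algebra.TensorProduct.assoc k k k A B C).toAlgHom := by
  intro x y
  change (Algebra.TensorProduct.assoc k k k A B C) (tbr (p.tensor q) r x y)
    = tbr p (q.tensor r) ((Algebra.TensorProduct.assoc k k k A B C) x)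
      ((Algebra.TensorProduct.assoc k k k A B C) y)
  induction x with
  | zero => simp
  | add x₁ x₂ h₁ h₂ => simp only [map_add, LinearMap.add_apply, h₁, h₂]
  | tmul a b =>
    induction y with
    | zero => simp
    | add x₁ x₂ h₁ h₂ => simp only [map_add, h₁, h₂]
    | tmul c d =>
      induction a with
      | zero => simp
      | add x₁ x₂ h₁ h₂ =>
        simp only [TensorProduct.add_tmul, map_add, LinearMap.add_apply, h₁, h₂]
      | tmul a a' =>
        induction c with
        | zero => simp
        | add x₁ x₂ h₁ h₂ =>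
          simp only [TensorProduct.add_tmul, map_add, h₁, h₂]
        | tmul c c' =>
          rw [tbr_tmul]
          change (Algebra.TensorProduct.assoc k k k A B C)
            (tbr p q _ _ ⊗ₜ[k] _ + _) = _
          rw [tbr_tmul, Algebra.TensorProduct.tmul_mul_tmul]
          simp only [TensorProduct.add_tmul, map_add, Algebra.TensorProduct.assoc_tmul]
          rw [tbr_tmul, Algebra.TensorProduct.tmul_mul_tmul]
          change _ = _ + _ ⊗ₜ[k] (tbr q r _ _)
          rw [tbr_tmul, TensorProduct.tmul_add]
          abel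

theorem isP_includeLeft : IsP p (p.tensor q) (Algebra.TensorProduct.includeLeft) := by
  intro x y
  change _ = tbr p q (x ⊗ₜ 1) (y ⊗ₜ 1)
  rw [tbr_tmul, q.br_one]
  simp

theorem isP_rid : IsP (p.tensor (zero k k)) p (Algebra.TensorProduct.rid k k A).toAlgHom := by
  intro x y
  change (Algebra.TensorProduct.rid k k A) (tbr p (zero k k) x y)
    = p.br ((Algebra.TensorProduct.rid k k A) x) ((Algebra.TensorProduct.rid k k A) y)
  induction x with
  | zero => simp
  | add x₁ x₂ h₁ h₂ => simp only [map_add, LinearMap.add_apply, h₁, h₂]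
  | tmul a b =>
    induction y with
    | zero => simp
    | add x₁ x₂ h₁ h₂ => simp only [map_add, h₁, h₂]
    | tmul c d =>
      rw [tbr_tmul]
      simp [zero, smul_smul, mul_comm]

theorem isP_lid : IsP ((zero k k).tensor p) p (Algebra.TensorProduct.lid k A).toAlgHom := by
  intro x y
  change (Algebra.TensorProduct.lid k A) (tbr (zero k k) p x y)
    = p.br ((Algebra.TensorProduct.lid k A) x) ((Algebra.TensorProduct.lid k A) y)
  induction x with
  | zero => simp
  | add x₁ x₂ h₁ h₂ => simp only [map_add, LinearMap.add_apply, h₁, h₂]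
  | tmul a b =>
    induction y with
    | zero => simp
    | add x₁ x₂ h₁ h₂ => simp only [map_add, h₁, h₂]
    | tmul c d =>
      rw [tbr_tmul]
      simp [zero, smul_smul, mul_comm]

end Poisson

end R641.PH
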