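import Pool.Agent.R641.PH.Pid

/-!
# The category of Poisson Hopf algebras
-/

set_option autoImplicit false

open scoped TensorProduct
open Coalgebra Bialgebra HopfAlgebra CategoryTheory

namespace R641.PH

universe u v

/-- A Poisson Hopf algebra over `k`: a commutative Hopf algebra with a Poisson bracket such that
the comultiplication and the counit are morphisms of Poisson algebras. -/
structure PoissonHopfAlg (k : Type u) [Field k] where
  /-- the underlying type -/
  carrier : Type v
  [commRing : CommRing carrier]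
  [hopfAlgebra : HopfAlgebra k carrier]
  /-- the Poisson bracket -/
  bracket : Poisson k carrier
  isPH : bracket.IsPH

attribute [instance] PoissonHopfAlg.commRing PoissonHopfAlg.hopfAlgebra

namespace PoissonHopfAlg

variable {k : Type u} [Field k]

/-- Morphisms of Poisson Hopf algebras: bialgebra maps which preserve the bracket. -/
@[ext]
structure Hom (X Y : PoissonHopfAlg.{u, v} k) where
  /-- the underlying morphism of bialgebras -/
  hom : X.carrier →ₐc[k] Y.carrier
  map_bracket : ∀ x y : X.carrier, hom (X.bracket.br x y) = Y.bracket.br (hom x) (hom y)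

theorem Hom.comp_bracket {X Y Z : PoissonHopfAlg.{u, v} k} (f : Hom X Y) (g : Hom Y Z)
    (x y : X.carrier) : (g.hom.comp f.hom) (X.bracket.br x y) =
      Z.bracket.br ((g.hom.comp f.hom) x) ((g.hom.comp f.hom) y) := by
  simp only [BialgHom.coe_comp, Function.comp_apply, f.map_bracket, g.map_bracket]

instance : Category (PoissonHopfAlg.{u, v} k) where
  Hom := Hom
  id X := ⟨BialgHom.id k X.carrier, fun _ _ => rfl⟩
  comp f g := ⟨g.hom.comp f.hom, Hom.comp_bracket f g⟩

variable {X Y : PoissonHopfAlg.{u, v} k}

/-- The target of the two inclusions. -/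
noncomputable def push (f : X ⟶ Y) : PoissonHopfAlg.{u, v} k :=
  letI := Poisson.phopf Y.isPH f.hom
  { carrier := Poisson.Push Y.bracket (f.hom : X.carrier →ₐ[k] Y.carrier)
    bracket := Poisson.Push.poisson Y.bracket (f.hom : X.carrier →ₐ[k] Y.carrier)
    isPH := Poisson.phopf_isPH Y.isPH f.hom }

/-- the left inclusion -/
noncomputable def inl (f : X ⟶ Y) : Y ⟶ push f :=
  ⟨Poisson.inlB Y.isPH f.hom, Poisson.Push.isP_inl Y.bracket _⟩

/-- the right inclusion -/
noncomputable def inr (f : X ⟶ Y) : Y ⟶ push f :=
  ⟨Poisson.inrB Y.isPH f.hom, Poisson.Push.isP_inr⟩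

theorem collapse (f : X ⟶ Y) [Epi f] :
    Poisson.Push.inl Y.bracket (f.hom : X.carrier →ₐ[k] Y.carrier) =
      Poisson.Push.inr Y.bracket (f.hom : X.carrier →ₐ[k] Y.carrier) := by
  have h1 : f ≫ inl f = f ≫ inr f := by
    apply Hom.ext
    ext a
    exact DFunLike.congr_fun (Poisson.Push.inl_comp (q := Y.bracket)
      (f := (f.hom : X.carrier →ₐ[k] Y.carrier))) a
  have h2 : inl f = inr f := (cancel_epi f).mp h1
  ext b
  exact congrArg (fun g : Y ⟶ push f => g.hom b) h2

theorem surjective_of_epi (hT : S_T.{0}) (hL : S_L) {k : Type} [Field k]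
    {X Y : PoissonHopfAlg.{0, 0} k} (f : X ⟶ Y) [Epi f] : Function.Surjective f.hom :=
  hT k X.carrier Y.carrier f.hom fun b hb =>
    Poisson.aug_le hL X.bracket Y.bracket X.isPH Y.isPH f.hom f.map_bracket (collapse f) b hb

end PoissonHopfAlg

end R641.PH
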