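import Mathlib

/-!
# Epimorphisms of Poisson Hopf algebras (MP_c108b5_al): exact statements of independent tasks
-/

set_option autoImplicit false

namespace R641.PH

universe u

/-- Task PH-T.  Let `f : A → B` be a morphism of commutative Hopf algebras over a field such that
the augmentation ideal of `B` is generated, as an ideal of `B`, by the image of the augmentation
ideal of `A`.  Then `f` is surjective. -/
def S_T : Prop :=
  ∀ (k A B : Type u) [Field k] [CommRing A] [CommRing B] [HopfAlgebra k A] [HopfAlgebra k B]
    (f : A →ₐc[k] B),
    (∀ b : B, Coalgebra.counit (R := k) b = 0 →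
      b ∈ Ideal.span (f '' {a : A | Coalgebra.counit (R := k) a = 0})) →
    Function.Surjective f

/-- Task PH-L.  For a Lie subalgebra `H` of a Lie algebra `L` over a field and `x ∉ H` there are a
module `E` of `L` and a vector of `E` which is killed by `H` but not by `x`. -/
def S_L : Prop :=
  ∀ (K L : Type) [Field K] [LieRing L] [LieAlgebra K L] (H : LieSubalgebra K L) (x : L),
    x ∉ H → ∃ (E : Type) (_ : AddCommGroup E) (_ : Module K E) (_ : LieRingModule L E)
      (_ : LieModule K L E) (e : E), (∀ h ∈ H, ⁅h, e⁆ = 0) ∧ ⁅x, e⁆ ≠ 0

end R641.PH
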