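import Pool.Agent.R641.PH.Ext
import Pool.Agent.R641.PH.Stm

/-!
# The Lie algebra of a Poisson Hopf algebra
-/

set_option autoImplicit false

open scoped TensorProduct
open Coalgebra Bialgebra HopfAlgebra

namespace R641.PH

namespace Poisson

universe u v w

variable {k : Type u} {B : Type v} [CommRing k] [CommRing B] [HopfAlgebra k B]

/-- The algebra `B` as a Lie algebra with its Poisson bracket. -/
def LB (_q : Poisson k B) : Type v := B

section lie

variable (q : Poisson k B)

local instance : AddCommGroup (LB q) := inferInstanceAs (AddCommGroup B)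
local instance : Module k (LB q) := inferInstanceAs (Module k B)

omit [HopfAlgebra k B] in
theorem leib_br [Algebra k B] (q : Poisson k B) (x y z : B) :
    q.br x (q.br y z) = q.br (q.br x y) z + q.br y (q.br x z) := by
  have := q.jacobi x y z
  rw [q.skew z (q.br x y), q.skew z x, map_neg] at this
  have h2 : q.br x (q.br y z) - (q.br (q.br x y) z + q.br y (q.br x z)) = 0 := by
    rw [← this]; abel
  exact sub_eq_zero.mp h2

local instance : LieRing (LB q) where
  bracket x y := q.br x y
  add_lie x y z := LinearMap.map_add₂ q.br x y z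
  lie_add x y z := (q.br x).map_add y z
  lie_self x := q.alt x
  leibniz_lie x y z := leib_br q x y z

local instance : LieAlgebra k (LB q) where
  lie_smul c x y := (q.br x).map_smul c y

/-- The augmentation ideal. -/
noncomputable def aug (k : Type u) (B : Type v) [CommRing k] [CommRing B] [HopfAlgebra k B] :
    Ideal B := RingHom.ker (counitAlgHom k B)

theorem mem_aug (x : B) : x ∈ aug k B ↔ Coalgebra.counit (R := k) x = 0 := Iff.rfl

theorem br_mem_sq {q : Poisson k B} (hq : IsPH q) (y : B) {x : B} (hx : x ∈ aug k B ^ 2) :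
    q.br y x ∈ aug k B ^ 2 := by
  rw [pow_two] at hx ⊢
  induction hx using Submodule.mul_induction_on' with
  | mem_mul_mem a ha b hb =>
    rw [q.leibniz]
    exact Ideal.add_mem _ (Ideal.mul_mem_mul (hq.counit_br y a) hb)
      (Ideal.mul_mem_mul ha (hq.counit_br y b))
  | add a _ b _ ha hb =>
    rw [map_add]
    exact Ideal.add_mem _ ha hb

theorem kI_add {x y : B} (hx : ∃ c : k, ∃ u ∈ aug k B ^ 2, x = algebraMap k B c + u)
    (hy : ∃ c : k, ∃ u ∈ aug k B ^ 2, y = algebraMap k B c + u) :
    ∃ c : k, ∃ u ∈ aug k B ^ 2, x + y = algebraMap k B c + u := by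
  obtain ⟨c, u, hu, rfl⟩ := hx
  obtain ⟨d, v, hv, rfl⟩ := hy
  exact ⟨c + d, u + v, Ideal.add_mem _ hu hv, by rw [map_add]; ring⟩

theorem kI_smul (r : k) {x : B} (hx : ∃ c : k, ∃ u ∈ aug k B ^ 2, x = algebraMap k B c + u) :
    ∃ c : k, ∃ u ∈ aug k B ^ 2, r • x = algebraMap k B c + u := by
  obtain ⟨c, u, hu, rfl⟩ := hx
  refine ⟨r * c, r • u, ?_, ?_⟩
  · rw [Algebra.smul_def]; exact Ideal.mul_mem_left _ _ hu
  · rw [map_mul, smul_add, Algebra.smul_def r (algebraMap k B c)]

theorem kI_br {q : Poisson k B} (hq : IsPH q) (y : B) {x : B}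
    (hx : ∃ c : k, ∃ u ∈ aug k B ^ 2, x = algebraMap k B c + u) :
    ∃ c : k, ∃ u ∈ aug k B ^ 2, q.br y x = algebraMap k B c + u := by
  obtain ⟨c, u, hu, rfl⟩ := hx
  refine ⟨0, q.br y u, br_mem_sq hq y hu, ?_⟩
  rw [map_add, q.br_algebraMap, map_zero]

/-- The Lie ideal `k 1 + I ^ 2`. -/
noncomputable def kI {q : Poisson k B} (hq : IsPH q) : LieIdeal k (LB q) where
  carrier := {x | ∃ c : k, ∃ u ∈ aug k B ^ 2, (show B from x) = algebraMap k B c + u}
  add_mem' := fun hx hy => kI_add hx hy
  zero_mem' := ⟨0, 0, Ideal.zero_mem _, by rw [map_zero, add_zero]; rfl⟩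
  smul_mem' := fun r _ hx => kI_smul r hx
  lie_mem := fun {x m} hx => kI_br hq x hx

theorem mem_kI {q : Poisson k B} (hq : IsPH q) (x : B) :
    (show LB q from x) ∈ kI hq ↔ ∃ c : k, ∃ u ∈ aug k B ^ 2, x = algebraMap k B c + u := Iff.rfl

/-- The cotangent space at the unit with its Lie bracket. -/
abbrev DD {q : Poisson k B} (hq : IsPH q) : Type v := LB q ⧸ kI hq

/-- the projection -/
noncomputable def pr {q : Poisson k B} (hq : IsPH q) : B →ₗ[k] DD hq where
  toFun x := LieSubmodule.Quotient.mk (N := kI hq) (show LB q from x)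
  map_add' _ _ := rfl
  map_smul' _ _ := rfl

theorem pr_eq_zero {q : Poisson k B} (hq : IsPH q) (x : B) :
    pr hq x = 0 ↔ ∃ c : k, ∃ u ∈ aug k B ^ 2, x = algebraMap k B c + u :=
  (LieSubmodule.Quotient.mk_eq_zero' (N := kI hq) (m := (show LB q from x))).trans Iff.rfl

theorem pr_surj {q : Poisson k B} (hq : IsPH q) : Function.Surjective (pr hq) :=
  LieSubmodule.Quotient.surjective_mk' (kI hq)

theorem pr_br {q : Poisson k B} (hq : IsPH q) (x y : B) : pr hq (q.br x y) = ⁅pr hq x, pr hq y⁆ :=
  rfl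

theorem pr_mul {q : Poisson k B} (hq : IsPH q) (x y : B) :
    pr hq (x * y) = Coalgebra.counit (R := k) x • pr hq y
      + Coalgebra.counit (R := k) y • pr hq x := by
  rw [← map_smul, ← map_smul, ← map_add, ← sub_eq_zero, ← map_sub, pr_eq_zero]
  refine ⟨- (Coalgebra.counit (R := k) x * Coalgebra.counit (R := k) y),
    (x - algebraMap k B (Coalgebra.counit (R := k) x)) *
      (y - algebraMap k B (Coalgebra.counit (R := k) y)), ?_, ?_⟩
  · rw [pow_two]
    refine Ideal.mul_mem_mul ?_ ?_
    · rw [mem_aug, map_sub]; simp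
    · rw [mem_aug, map_sub]; simp
  · rw [Algebra.smul_def, Algebra.smul_def, map_neg, map_mul]
    ring

end lie

section main

/-- If the cokernel pair of `f` collapses then `f` is surjective on cotangent spaces. -/
theorem cot_surj (hL : S_L) {k A B : Type} [Field k] [CommRing A] [CommRing B] [HopfAlgebra k A]
    [HopfAlgebra k B] (p : Poisson k A) (q : Poisson k B) (hq : IsPH q) (f : A →ₐc[k] B)
    (hf : IsP p q (f : A →ₐ[k] B))
    (hc : Push.inl q (f : A →ₐ[k] B) = Push.inr q (f : A →ₐ[k] B)) (b : B) :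
    ∃ a : A, ∃ c : k, ∃ u ∈ aug k B ^ 2, b - f a = algebraMap k B c + u := by
  let H : LieSubalgebra k (DD hq) :=
    { carrier := {x | ∃ a : A, x = pr hq (f a)}
      add_mem' := by
        rintro x y ⟨a, rfl⟩ ⟨b, rfl⟩
        exact ⟨a + b, by rw [map_add, map_add]⟩
      zero_mem' := ⟨0, by rw [map_zero, map_zero]⟩
      smul_mem' := by
        rintro c x ⟨a, rfl⟩
        exact ⟨c • a, by rw [map_smul, map_smul]⟩
      lie_mem' := by
        rintro x y ⟨a, rfl⟩ ⟨b, rfl⟩
        refine ⟨p.br a b, ?_⟩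
        have : f (p.br a b) = q.br (f a) (f b) := hf a b
        rw [this, pr_br] }
  by_cases hb : pr hq b ∈ H
  · obtain ⟨a, ha⟩ := hb
    refine ⟨a, ?_⟩
    rw [← pr_eq_zero hq, map_sub, ha, sub_self]
  · exfalso
    obtain ⟨E, i1, i2, i3, i4, e, h1, h2⟩ := hL k (DD hq) H (pr hq b) hb
    let act : B →ₗ[k] Module.End k E :=
      (LieModule.toEnd k (DD hq) E : DD hq →ₗ[k] Module.End k E) ∘ₗ pr hq
    have hact : ∀ (x : B) (v : E), act x v = ⁅pr hq x, v⁆ := fun _ _ => rfl
    apply h2
    have := act_eq_zero (q := q) (act := act) f hc hq ?_ ?_ e ?_ b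
    · exact this
    · intro x y
      ext v
      simp only [hact, LinearMap.add_apply, LinearMap.smul_apply, pr_mul, add_lie, smul_lie]
    · intro x y
      ext v
      simp only [hact, LinearMap.sub_apply, Module.End.mul_apply, pr_br, lie_lie]
    · intro a
      exact h1 _ ⟨a, rfl⟩

/-- If the cokernel pair of `f` collapses then every element of the augmentation ideal of `B`
is the image of an element of the augmentation ideal of `A` modulo the square of the ideal. -/
theorem cot_surj' (hL : S_L) {k A B : Type} [Field k] [CommRing A] [CommRing B] [HopfAlgebra k A]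
    [HopfAlgebra k B] (p : Poisson k A) (q : Poisson k B) (hq : IsPH q) (f : A →ₐc[k] B)
    (hf : IsP p q (f : A →ₐ[k] B))
    (hc : Push.inl q (f : A →ₐ[k] B) = Push.inr q (f : A →ₐ[k] B)) (b : B)
    (hb : Coalgebra.counit (R := k) b = 0) :
    ∃ a : A, Coalgebra.counit (R := k) a = 0 ∧ b - f a ∈ aug k B ^ 2 := by
  obtain ⟨a, c, u, hu, h⟩ := cot_surj hL p q hq f hf hc b
  refine ⟨a - algebraMap k A (Coalgebra.counit (R := k) a), by simp, ?_⟩
  have hu0 : Coalgebra.counit (R := k) u = 0 := by
    have : u ∈ aug k B := Ideal.pow_le_self two_ne_zero hu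
    exact this
  have h2 := congrArg (Coalgebra.counit (R := k)) h
  rw [map_sub, map_add, hb, hu0, CoalgHomClass.counit_comp_apply] at h2
  simp at h2
  have h3 : f (a - algebraMap k A (Coalgebra.counit (R := k) a)) = f a
      + algebraMap k B c := by
    rw [map_sub, ← h2, AlgHomClass.commutes, map_neg, sub_eq_add_neg]
  rw [h3, ← sub_sub, h]
  simpa using hu

end main

end Poisson

end R641.PH
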