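import Pool.Agent.R641.PH.Hopf

/-!
# Square-zero extensions of a Poisson Hopf algebra
-/

set_option autoImplicit false

open scoped TensorProduct
open Coalgebra Bialgebra HopfAlgebra

namespace R641.PH

namespace Poisson

universe u v w

variable {k : Type u} {B : Type v} [CommRing k] [CommRing B] [HopfAlgebra k B]
variable {E : Type w} [AddCommGroup E] [Module k E]

section rho

variable (q : Poisson k B) (act : B →ₗ[k] Module.End k E)

/-- `x ⊗ y` acts on `c ⊗ v` by `x c ⊗ y v`. -/
noncomputable def theta : B ⊗[k] B →ₗ[k] (B ⊗[k] E →ₗ[k] B ⊗[k] E) :=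
  TensorProduct.homTensorHomMap (RingHom.id k) B E B E ∘ₗ TensorProduct.map (LinearMap.mul k B) act

theorem theta_tmul (x y c : B) (v : E) :
    theta act (x ⊗ₜ y) (c ⊗ₜ v) = (x * c) ⊗ₜ (act y v) := rfl

/-- `{b, c} ⊗ v` -/
noncomputable def beta : B →ₗ[k] (B ⊗[k] E →ₗ[k] B ⊗[k] E) :=
  (TensorProduct.mapBilinear (RingHom.id k) B E B E).flip LinearMap.id ∘ₗ q.br

theorem beta_tmul (b c : B) (v : E) : beta q b (c ⊗ₜ v) = (q.br b c) ⊗ₜ[k] v := rfl

/-- The Poisson module structure. -/
noncomputable def rho : B →ₗ[k] (B ⊗[k] E →ₗ[k] B ⊗[k] E) :=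
  beta q + theta act ∘ₗ Coalgebra.comul

theorem rho_apply (b : B) (m : B ⊗[k] E) :
    rho q act b m = beta q b m + theta act (Coalgebra.comul b) m := rfl

/-- `x ⊗ y ↦ ε(y) x` -/
noncomputable def reps (k : Type u) (B : Type v) [CommRing k] [CommRing B] [HopfAlgebra k B] :
    B ⊗[k] B →ₗ[k] B :=
  (TensorProduct.rid k B).toLinearMap ∘ₗ (Coalgebra.counit (R := k) (A := B)).lTensor B

theorem reps_tmul (x y : B) : reps k B (x ⊗ₜ y) = Coalgebra.counit (R := k) y • x := rfl

theorem reps_comul (b : B) : reps k B (Coalgebra.comul b) = b := by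
  unfold reps
  rw [LinearMap.comp_apply, Coalgebra.lTensor_counit_comul]
  simp

variable {q act}

theorem beta_smul (b c : B) (m : B ⊗[k] E) :
    beta q b (c • m) = q.br b c • m + c • beta q b m := by
  induction m with
  | zero => simp
  | add x y hx hy => simp only [smul_add, map_add, hx, hy]; abel
  | tmul x v =>
    simp only [TensorProduct.smul_tmul', beta_tmul, smul_eq_mul, q.leibniz,
      TensorProduct.add_tmul]

theorem theta_smul (X : B ⊗[k] B) (c : B) (m : B ⊗[k] E) :
    theta act X (c • m) = c • theta act X m := by
  induction m with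
  | zero => simp
  | add x y hx hy => simp only [smul_add, map_add, hx, hy]
  | tmul x v =>
    induction X with
    | zero => simp
    | add X Y hX hY => simp only [map_add, LinearMap.add_apply, smul_add, hX, hY]
    | tmul y z =>
      simp only [TensorProduct.smul_tmul', smul_eq_mul, theta_tmul]
      congr 1; ring

theorem rho_smul (b c : B) (m : B ⊗[k] E) :
    rho q act b (c • m) = q.br b c • m + c • rho q act b m := by
  rw [rho_apply, rho_apply, beta_smul, theta_smul, smul_add]; abel

theorem theta_mul (h : ∀ x y : B, act (x * y) =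
      Coalgebra.counit (R := k) x • act y + Coalgebra.counit (R := k) y • act x)
    (X Y : B ⊗[k] B) (m : B ⊗[k] E) :
    theta act (X * Y) m = reps k B X • theta act Y m + reps k B Y • theta act X m := by
  induction m with
  | zero => simp
  | add x y hx hy => simp only [smul_add, map_add, hx, hy]; abel
  | tmul c v =>
    induction X with
    | zero => simp
    | add X₁ X₂ h₁ h₂ =>
      simp only [add_mul, map_add, LinearMap.add_apply, smul_add, add_smul, h₁, h₂]; abel
    | tmul x x' =>
      induction Y with
      | zero => simp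
      | add X₁ X₂ h₁ h₂ =>
        simp only [mul_add, map_add, LinearMap.add_apply, smul_add, add_smul, h₁, h₂]; abel
      | tmul y y' =>
        simp only [Algebra.TensorProduct.tmul_mul_tmul, theta_tmul, reps_tmul, h,
          LinearMap.add_apply, LinearMap.smul_apply, TensorProduct.tmul_add,
          TensorProduct.tmul_smul, TensorProduct.smul_tmul', smul_eq_mul, smul_mul_assoc]
        congr 3 <;> ring

theorem rho_mul (h : ∀ x y : B, act (x * y) =
      Coalgebra.counit (R := k) x • act y + Coalgebra.counit (R := k) y • act x)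
    (b b' : B) (m : B ⊗[k] E) :
    rho q act (b * b') m = b • rho q act b' m + b' • rho q act b m := by
  have hb : beta q (b * b') m = b • beta q b' m + b' • beta q b m := by
    induction m with
    | zero => simp
    | add x y hx hy => simp only [smul_add, map_add, hx, hy]; abel
    | tmul c v =>
      simp only [beta_tmul, q.leibniz_left, TensorProduct.smul_tmul', smul_eq_mul,
        TensorProduct.add_tmul]
  rw [rho_apply, rho_apply, rho_apply, hb, Bialgebra.comul_mul, theta_mul h, reps_comul,
    reps_comul, smul_add, smul_add]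
  abel

theorem theta_tbr (h : ∀ x y : B, act (x * y) =
      Coalgebra.counit (R := k) x • act y + Coalgebra.counit (R := k) y • act x)
    (h2 : ∀ x y : B, act (q.br x y) = act x * act y - act y * act x)
    (X Y : B ⊗[k] B) (m : B ⊗[k] E) :
    theta act (tbr q q X Y) m =
      (beta q (reps k B X) (theta act Y m) - theta act Y (beta q (reps k B X) m))
      - (beta q (reps k B Y) (theta act X m) - theta act X (beta q (reps k B Y) m))
      + (theta act X (theta act Y m) - theta act Y (theta act X m)) := by
  induction m with
  | zero => simp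
  | add x y hx hy => simp only [map_add, hx, hy]; abel
  | tmul c v =>
    induction X with
    | zero => simp
    | add X₁ X₂ h₁ h₂ =>
      simp only [map_add, LinearMap.add_apply, h₁, h₂]; abel
    | tmul x x' =>
      induction Y with
      | zero => simp
      | add X₁ X₂ h₁ h₂ =>
        simp only [map_add, LinearMap.add_apply, h₁, h₂]; abel
      | tmul y y' =>
        simp only [tbr_tmul, map_add, LinearMap.add_apply, theta_tmul, reps_tmul, h, h2,
          beta_tmul, LinearMap.smul_apply, map_smul, LinearMap.sub_apply, Module.End.mul_apply,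
          TensorProduct.tmul_add, TensorProduct.tmul_sub, TensorProduct.tmul_smul, q.leibniz,
          TensorProduct.add_tmul, smul_add]
        rw [q.skew y x, ← mul_assoc x y c, show y * (x * c) = x * y * c by ring]
        simp only [neg_mul, TensorProduct.neg_tmul, smul_neg]
        abel

theorem rho_br (h : ∀ x y : B, act (x * y) =
      Coalgebra.counit (R := k) x • act y + Coalgebra.counit (R := k) y • act x)
    (h2 : ∀ x y : B, act (q.br x y) = act x * act y - act y * act x) (hq : IsPH q)
    (b b' : B) (m : B ⊗[k] E) :
    rho q act (q.br b b') m = rho q act b (rho q act b' m) - rho q act b' (rho q act b m) := by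
  have hb : beta q (q.br b b') m = beta q b (beta q b' m) - beta q b' (beta q b m) := by
    induction m with
    | zero => simp
    | add x y hx hy => simp only [map_add, hx, hy]; abel
    | tmul c v =>
      simp only [beta_tmul, ← TensorProduct.sub_tmul]
      congr 1
      have := q.jacobi b b' c
      rw [q.skew c (q.br b b'), q.skew c b, map_neg] at this
      linear_combination -this
  simp only [rho_apply, hb, hq.comul_br, theta_tbr h h2, reps_comul, map_add]
  abel

end rho

section ext

variable (q : Poisson k B) (act : B →ₗ[k] Module.End k E)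

/-- The square-zero extension of `B` by the Poisson module `B ⊗ E`. -/
noncomputable def sqz (hq : IsPH q) (h : ∀ x y : B, act (x * y) =
      Coalgebra.counit (R := k) x • act y + Coalgebra.counit (R := k) y • act x)
    (h2 : ∀ x y : B, act (q.br x y) = act x * act y - act y * act x) :
    Poisson k (TrivSqZeroExt B (B ⊗[k] E)) where
  br := LinearMap.mk₂ k (fun x y => TrivSqZeroExt.inl (q.br x.fst y.fst) +
      TrivSqZeroExt.inr (rho q act x.fst y.snd - rho q act y.fst x.snd))
    (by intro x y z; ext <;> simp; abel)
    (by intro c x y; ext <;> simp [smul_sub])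
    (by intro x y z; ext <;> simp; abel)
    (by intro c x y; ext <;> simp [smul_sub])
  alt := by intro x; ext <;> simp [q.alt]
  jacobi := by
    intro x y z
    ext
    · simp [q.jacobi]
    · simp [rho_br h h2 hq]; abel
  leibniz := by
    intro x y z
    ext
    · simp [q.leibniz]
    · simp [rho_smul, rho_mul h]
      simp only [smul_sub]
      abel

variable {q act}

theorem rho_one (h : ∀ x y : B, act (x * y) =
      Coalgebra.counit (R := k) x • act y + Coalgebra.counit (R := k) y • act x)
    (m : B ⊗[k] E) : rho q act 1 m = 0 := by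
  have h1 := rho_mul (q := q) h 1 1 m
  rw [mul_one, one_smul] at h1
  exact left_eq_add.mp h1

/-- The map `b ↦ (b, ρ(b)(1 ⊗ e))`. -/
noncomputable def dmap (h : ∀ x y : B, act (x * y) =
      Coalgebra.counit (R := k) x • act y + Coalgebra.counit (R := k) y • act x)
    (q : Poisson k B) (e : E) : B →ₐ[k] TrivSqZeroExt B (B ⊗[k] E) :=
  AlgHom.ofLinearMap
    { toFun := fun b => TrivSqZeroExt.inl b + TrivSqZeroExt.inr (rho q act b (1 ⊗ₜ e))
      map_add' := by intro x y; ext <;> simp
      map_smul' := by intro c x; ext <;> simp }
    (by ext <;> simp [rho_one h])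
    (by intro x y; ext <;> simp [rho_mul h])

theorem dmap_apply (h : ∀ x y : B, act (x * y) =
      Coalgebra.counit (R := k) x • act y + Coalgebra.counit (R := k) y • act x) (e : E) (b : B) :
    dmap h q e b = TrivSqZeroExt.inl b + TrivSqZeroExt.inr (rho q act b (1 ⊗ₜ e)) := rfl

theorem isP_dmap (hq : IsPH q) (h : ∀ x y : B, act (x * y) =
      Coalgebra.counit (R := k) x • act y + Coalgebra.counit (R := k) y • act x)
    (h2 : ∀ x y : B, act (q.br x y) = act x * act y - act y * act x) (e : E) :
    IsP q (sqz q act hq h h2) (dmap h q e) := by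
  intro x y
  rw [dmap_apply, rho_br h h2 hq]
  ext <;> simp [sqz, dmap_apply, sub_eq_add_neg]

theorem isP_inlHom (hq : IsPH q) (h : ∀ x y : B, act (x * y) =
      Coalgebra.counit (R := k) x • act y + Coalgebra.counit (R := k) y • act x)
    (h2 : ∀ x y : B, act (q.br x y) = act x * act y - act y * act x) :
    IsP q (sqz q act hq h h2) (TrivSqZeroExt.inlAlgHom k B (B ⊗[k] E)) := by
  intro x y
  ext <;> simp [sqz]

/-- If the cokernel pair collapses, a vector killed by the image of `A` is killed by `B`. -/
theorem act_eq_zero {A : Type*} [CommRing A] [HopfAlgebra k A] (f : A →ₐc[k] B)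
    (hc : Push.inl q (f : A →ₐ[k] B) = Push.inr q (f : A →ₐ[k] B)) (hq : IsPH q)
    (h : ∀ x y : B, act (x * y) =
      Coalgebra.counit (R := k) x • act y + Coalgebra.counit (R := k) y • act x)
    (h2 : ∀ x y : B, act (q.br x y) = act x * act y - act y * act x) (e : E)
    (he : ∀ a : A, act (f a) e = 0) (b : B) : act b e = 0 := by
  have hcomp : (TrivSqZeroExt.inlAlgHom k B (B ⊗[k] E)).comp (f : A →ₐ[k] B) =
      (dmap h q e).comp (f : A →ₐ[k] B) := by
    ext a
    · simp [dmap_apply]
    · have h0 : rho q act (f a) (1 ⊗ₜ[k] e) = 0 := by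
        rw [rho_apply, beta_tmul, q.br_one, TensorProduct.zero_tmul, zero_add,
          ← CoalgHomClass.map_comp_comul_apply]
        generalize Coalgebra.comul (R := k) a = X
        induction X with
        | zero => simp
        | add x y hx hy => rw [map_add, map_add, LinearMap.add_apply, hx, hy, add_zero]
        | tmul x y =>
          rw [TensorProduct.map_tmul, theta_tmul]
          change _ ⊗ₜ[k] (act (f y) e) = 0
          rw [he, TensorProduct.tmul_zero]
      simp [dmap_apply, h0]
  have heq : TrivSqZeroExt.inlAlgHom k B (B ⊗[k] E) = dmap h q e := by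
    rw [← Push.lift_inl (f := (f : A →ₐ[k] B)) (sqz q act hq h h2) _ _
      (isP_inlHom hq h h2) (isP_dmap hq h h2 e) hcomp, hc, Push.lift_inr]
  have h3 := congrArg TrivSqZeroExt.snd (DFunLike.congr_fun heq b)
  rw [dmap_apply] at h3
  simp only [TrivSqZeroExt.inlAlgHom_apply, TrivSqZeroExt.snd_inl, TrivSqZeroExt.snd_add,
    TrivSqZeroExt.snd_inr, zero_add] at h3
  have h4 : ∀ X : B ⊗[k] B, TensorProduct.lid k E
      ((Coalgebra.counit (R := k) (A := B)).rTensor E (theta act X (1 ⊗ₜ[k] e)))
      = act (TensorProduct.lid k B ((Coalgebra.counit (R := k) (A := B)).rTensor B X)) e := by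
    intro X
    induction X with
    | zero => simp
    | add x y hx hy => simp only [map_add, LinearMap.add_apply, hx, hy]
    | tmul x y => simp [theta_tmul]
  have h5 := h4 (Coalgebra.comul b)
  rw [Coalgebra.rTensor_counit_comul] at h5
  have h6 : theta act (Coalgebra.comul (R := k) b) (1 ⊗ₜ[k] e) = 0 := by
    have := h3.symm
    rw [rho_apply, beta_tmul, q.br_one, TensorProduct.zero_tmul, zero_add] at this
    exact this
  rw [h6] at h5
  simpa using h5.symm

end ext

end Poisson

end R641.PH
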