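import Pool.Agent.R641.PH.Push

/-!
# The antipode of a Poisson Hopf algebra is anti-Poisson; the cokernel pair is a Poisson Hopf algebra
-/

set_option autoImplicit false

open scoped TensorProduct
open Coalgebra Bialgebra HopfAlgebra

namespace R641.PH

namespace Poisson

universe u v w

variable {k : Type u} {B : Type v} [CommRing k] [CommRing B] [HopfAlgebra k B]

/-- Compatibility of the Poisson bracket with the bialgebra structure: the comultiplication and
the counit are morphisms of Poisson algebras. -/
structure IsPH (q : Poisson k B) : Prop where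
  comul : IsP q (q.tensor q) (comulAlgHom k B)
  counit : IsP q (zero k k) (counitAlgHom k B)

theorem IsPH.comul_br {q : Poisson k B} (h : IsPH q) (a b : B) :
    Coalgebra.comul (R := k) (q.br a b) = tbr q q (Coalgebra.comul a) (Coalgebra.comul b) :=
  h.comul a b

theorem IsPH.counit_br {q : Poisson k B} (h : IsPH q) (a b : B) :
    Coalgebra.counit (R := k) (q.br a b) = 0 := h.counit a b

/-- The multiplication is invertible for the convolution product. -/
theorem mul_conv_inv :
    (WithConv.toConv (LinearMap.mul' k B)) *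
      (WithConv.toConv (antipode k ∘ₗ LinearMap.mul' k B)) = 1 := by
  have h := LinearMap.convMul_comp_coalgHom_distrib (R := k) (A := B) (C := B)
    (B := B ⊗[k] B) (WithConv.toConv LinearMap.id) (WithConv.toConv (antipode k))
    (mulCoalgHom k B)
  rw [LinearMap.id_mul_antipode] at h
  apply WithConv.ofConv_injective
  have h' : ((WithConv.toConv (LinearMap.mul' k B)) *
      (WithConv.toConv (antipode k ∘ₗ LinearMap.mul' k B))).ofConv
      = (WithConv.ofConv (1 : WithConv (B →ₗ[k] B))) ∘ₗ LinearMap.mul' k B := h.symm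
  rw [h']
  ext a b
  simp [LinearMap.convOne_def, mul_comm]

theorem sum_left {q : Poisson k B} {ι : Type*} {a : B} (R : Coalgebra.Repr k a ι) (z : B) :
    ∑ i ∈ R.index, q.br (antipode k (R.left i)) z * R.right i =
      - ∑ i ∈ R.index, antipode k (R.left i) * q.br (R.right i) z := by
  have h1 : ∑ i ∈ R.index, q.br (antipode k (R.left i) * R.right i) z = 0 := by
    have := congrArg (fun t => q.br t z) (sum_antipode_mul_eq_algebraMap_counit R)
    simp only [map_sum, LinearMap.sum_apply] at this
    rw [this, q.br_algebraMap_left]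
  rw [eq_neg_iff_add_eq_zero, ← Finset.sum_add_distrib, ← h1]
  refine Finset.sum_congr rfl fun i _ => ?_
  rw [q.leibniz_left]; ring

theorem antipode_br {q : Poisson k B} (hq : IsPH q) (a b : B) :
    antipode k (q.br a b) = - q.br (antipode k a) (antipode k b) := by
  set u : B ⊗[k] B →ₗ[k] B := antipode k ∘ₗ TensorProduct.lift q.br
    + TensorProduct.lift q.br ∘ₗ TensorProduct.map (antipode k) (antipode k) with hu
  have key : (WithConv.toConv u) * (WithConv.toConv (LinearMap.mul' k B)) = 0 := by
    ext a b
    have h := ((ℛ k a).tmul (ℛ k b)).convMul_apply (WithConv.toConv u)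
      (WithConv.toConv (LinearMap.mul' k B))
    change (WithConv.toConv u * WithConv.toConv (LinearMap.mul' k B)) (a ⊗ₜ[k] b) = 0
    rw [h]
    set R := ℛ k a
    set R' := ℛ k b
    have hu' : ∀ x y : B, u (x ⊗ₜ y) = antipode k (q.br x y)
        + q.br (antipode k x) (antipode k y) := by
      intro x y; simp [hu]
    -- the antipode axiom for the bracket
    have hbr := mul_antipode_rTensor_comul_apply (R := k) (q.br a b)
    rw [hq.counit_br, hq.comul_br, ← R.eq, ← R'.eq] at hbr
    simp only [map_sum, LinearMap.sum_apply, tbr_tmul, map_add, LinearMap.rTensor_tmul,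
      LinearMap.mul'_apply, map_zero] at hbr
    simp only [Coalgebra.Repr.tmul_index, Coalgebra.Repr.tmul_left, Coalgebra.Repr.tmul_right]
    change ∑ x ∈ R.index ×ˢ R'.index, u (R.left x.1 ⊗ₜ R'.left x.2)
      * LinearMap.mul' k B (R.right x.1 ⊗ₜ R'.right x.2) = 0
    simp only [hu', LinearMap.mul'_apply]
    rw [Finset.sum_product]
    have hsec : ∑ i ∈ R.index, ∑ j ∈ R'.index,
        q.br (antipode k (R.left i)) (antipode k (R'.left j)) * (R.right i * R'.right j)
        = ∑ i ∈ R.index, ∑ j ∈ R'.index, antipode k (R.left i) * antipode k (R'.left j)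
          * q.br (R.right i) (R'.right j) := by
      calc _ = ∑ j ∈ R'.index, (∑ i ∈ R.index, q.br (antipode k (R.left i))
              (antipode k (R'.left j)) * R.right i) * R'.right j := by
            rw [Finset.sum_comm]
            refine Finset.sum_congr rfl fun j _ => ?_
            rw [Finset.sum_mul]
            refine Finset.sum_congr rfl fun i _ => ?_
            ring
        _ = ∑ j ∈ R'.index, (- ∑ i ∈ R.index, antipode k (R.left i) *
              q.br (R.right i) (antipode k (R'.left j))) * R'.right j := by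
            simp only [sum_left]
        _ = ∑ i ∈ R.index, antipode k (R.left i) * (∑ j ∈ R'.index,
              q.br (antipode k (R'.left j)) (R.right i) * R'.right j) := by
            simp only [neg_mul, Finset.sum_mul, Finset.mul_sum, ← Finset.sum_neg_distrib]
            rw [Finset.sum_comm]
            refine Finset.sum_congr rfl fun i _ => Finset.sum_congr rfl fun j _ => ?_
            rw [q.skew (R.right i)]; ring
        _ = ∑ i ∈ R.index, antipode k (R.left i) * (- ∑ j ∈ R'.index,
              antipode k (R'.left j) * q.br (R'.right j) (R.right i)) := by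
            simp only [sum_left]
        _ = _ := by
            simp only [mul_neg, Finset.mul_sum, ← Finset.sum_neg_distrib]
            refine Finset.sum_congr rfl fun i _ => Finset.sum_congr rfl fun j _ => ?_
            rw [q.skew (R'.right j)]; ring
    rw [Finset.sum_comm] at hbr
    rw [← hbr]
    simp only [add_mul, Finset.sum_add_distrib]
    rw [hsec]
    congr 1
    refine Finset.sum_congr rfl fun i _ => Finset.sum_congr rfl fun j _ => ?_
    rw [antipode_mul_distrib]
  have h2 : WithConv.toConv u = 0 := by
    rw [← mul_one (WithConv.toConv u), ← mul_conv_inv, ← mul_assoc, key, zero_mul]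
  have h3 : u = 0 := by
    have := congrArg WithConv.ofConv h2
    simpa using this
  have h4 := DFunLike.congr_fun h3 (a ⊗ₜ[k] b)
  simp [hu] at h4
  exact eq_neg_of_add_eq_zero_left h4

section comm

variable {A : Type w} [CommRing A] [HopfAlgebra k A]

/-- bialgebra morphisms commute with the antipode -/
theorem antipode_comp (f : A →ₐc[k] B) :
    (antipodeAlgHom k B).comp (f : A →ₐ[k] B) = (f : A →ₐ[k] B).comp (antipodeAlgHom k A) := by
  have h1 : WithConv.toConv ((antipodeAlgHom k B).comp (f : A →ₐ[k] B))
      * WithConv.toConv (f : A →ₐ[k] B) = 1 := by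
    have h := AlgHom.convMul_comp_bialgHom_distrib
      (WithConv.toConv (antipodeAlgHom k B)) (WithConv.toConv (AlgHom.id k B)) f
    rw [AlgHom.antipode_id_cancel] at h
    apply WithConv.ofConv_injective
    refine (Eq.trans ?_ h.symm).trans ?_
    · rfl
    · ext a
      change algebraMap k B (Coalgebra.counit (f a)) = algebraMap k B (Coalgebra.counit a)
      rw [CoalgHomClass.counit_comp_apply]
  have h2 := eq_inv_of_mul_eq_one_left h1
  exact congrArg WithConv.ofConv h2

end comm

section PushHopf

variable {A : Type w} [CommRing A] [HopfAlgebra k A]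
variable {q : Poisson k B} (hq : IsPH q) (f : A →ₐc[k] B)

/-- the comultiplication of the cokernel pair -/
noncomputable def pcomul : Push q (f : A →ₐ[k] B) →ₐ[k]
    Push q (f : A →ₐ[k] B) ⊗[k] Push q (f : A →ₐ[k] B) :=
  Push.lift (f := (f : A →ₐ[k] B))
    ((Push.poisson q (f : A →ₐ[k] B)).tensor (Push.poisson q (f : A →ₐ[k] B)))
    ((Algebra.TensorProduct.map (Push.inl q (f : A →ₐ[k] B)) (Push.inl q (f : A →ₐ[k] B))).comp
      (comulAlgHom k B))
    ((Algebra.TensorProduct.map (Push.inr q (f : A →ₐ[k] B)) (Push.inr q (f : A →ₐ[k] B))).comp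
      (comulAlgHom k B))
    (IsP.comp (isP_tmap (Push.isP_inl q _) (Push.isP_inl q _)) hq.comul)
    (IsP.comp (isP_tmap Push.isP_inr Push.isP_inr) hq.comul)
    (by
      rw [AlgHom.comp_assoc, AlgHom.comp_assoc, ← BialgHom.map_comp_comulAlgHom,
        ← AlgHom.comp_assoc, ← AlgHom.comp_assoc, ← Algebra.TensorProduct.map_comp,
        ← Algebra.TensorProduct.map_comp, Push.inl_comp])

/-- the counit of the cokernel pair -/
noncomputable def pcounit : Push q (f : A →ₐ[k] B) →ₐ[k] k :=
  Push.lift (f := (f : A →ₐ[k] B)) (zero k k) (counitAlgHom k B) (counitAlgHom k B)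
    hq.counit hq.counit rfl

/-- the antipode of the cokernel pair -/
noncomputable def pantipode : Push q (f : A →ₐ[k] B) →ₐ[k] Push q (f : A →ₐ[k] B) :=
  Push.lift (f := (f : A →ₐ[k] B)) (Push.poisson q (f : A →ₐ[k] B)).neg
    ((Push.inl q (f : A →ₐ[k] B)).comp (antipodeAlgHom k B))
    ((Push.inr q (f : A →ₐ[k] B)).comp (antipodeAlgHom k B))
    (by
      intro x y
      simp only [AlgHom.comp_apply, antipodeAlgHom_apply, neg_br]
      rw [antipode_br hq, map_neg, Push.isP_inl])
    (by
      intro x y
      simp only [AlgHom.comp_apply, antipodeAlgHom_apply, neg_br]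
      rw [antipode_br hq, map_neg, Push.isP_inr])
    (by
      rw [AlgHom.comp_assoc, AlgHom.comp_assoc, antipode_comp, ← AlgHom.comp_assoc,
        ← AlgHom.comp_assoc, Push.inl_comp])

theorem pcomul_inl : (pcomul hq f).comp (Push.inl q (f : A →ₐ[k] B)) =
    (Algebra.TensorProduct.map (Push.inl q (f : A →ₐ[k] B)) (Push.inl q (f : A →ₐ[k] B))).comp
      (comulAlgHom k B) := rfl

theorem pcomul_inr : (pcomul hq f).comp (Push.inr q (f : A →ₐ[k] B)) =
    (Algebra.TensorProduct.map (Push.inr q (f : A →ₐ[k] B)) (Push.inr q (f : A →ₐ[k] B))).comp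
      (comulAlgHom k B) := rfl

theorem isP_pcomul : IsP (Push.poisson q (f : A →ₐ[k] B))
    ((Push.poisson q (f : A →ₐ[k] B)).tensor (Push.poisson q (f : A →ₐ[k] B)))
    (pcomul hq f) := Push.isP_lift _ _ _ _ _ _

theorem isP_pcounit : IsP (Push.poisson q (f : A →ₐ[k] B)) (zero k k) (pcounit hq f) :=
  Push.isP_lift _ _ _ _ _ _

end PushHopf

section gen

variable {P : Type w} [CommRing P] [Algebra k P] {D : P →ₐ[k] P ⊗[k] P} {e : P →ₐ[k] k}
  {j : B →ₐ[k] P}

theorem gen_comul (hj : D.comp j = (Algebra.TensorProduct.map j j).comp (comulAlgHom k B)) :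
    ((Algebra.TensorProduct.assoc k k k P P P).toAlgHom.comp
      ((Algebra.TensorProduct.map D (.id k P)).comp D)).comp j
      = ((Algebra.TensorProduct.map (.id k P) D).comp D).comp j := by
  have hc : (Algebra.TensorProduct.assoc k k k B B B).toAlgHom.comp
      ((Algebra.TensorProduct.map (comulAlgHom k B) (.id k B)).comp (comulAlgHom k B))
      = (Algebra.TensorProduct.map (.id k B) (comulAlgHom k B)).comp (comulAlgHom k B) := by
    ext x
    exact Coalgebra.coassoc_apply (R := k) x
  have hn : (Algebra.TensorProduct.assoc k k k P P P).toAlgHom.comp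
      (Algebra.TensorProduct.map (Algebra.TensorProduct.map j j) j)
      = (Algebra.TensorProduct.map j (Algebra.TensorProduct.map j j)).comp
        (Algebra.TensorProduct.assoc k k k B B B).toAlgHom := by
    ext <;> simp [Algebra.TensorProduct.one_def]
  have e1 : (Algebra.TensorProduct.map D (.id k P)).comp (D.comp j) =
      (Algebra.TensorProduct.map (Algebra.TensorProduct.map j j) j).comp
        ((Algebra.TensorProduct.map (comulAlgHom k B) (.id k B)).comp (comulAlgHom k B)) := by
    rw [hj, ← AlgHom.comp_assoc, ← Algebra.TensorProduct.map_comp, hj, ← AlgHom.comp_assoc,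
      ← Algebra.TensorProduct.map_comp, AlgHom.id_comp, AlgHom.comp_id]
  have e2 : (Algebra.TensorProduct.map (.id k P) D).comp (D.comp j) =
      (Algebra.TensorProduct.map j (Algebra.TensorProduct.map j j)).comp
        ((Algebra.TensorProduct.map (.id k B) (comulAlgHom k B)).comp (comulAlgHom k B)) := by
    rw [hj, ← AlgHom.comp_assoc, ← Algebra.TensorProduct.map_comp, hj, ← AlgHom.comp_assoc,
      ← Algebra.TensorProduct.map_comp, AlgHom.id_comp, AlgHom.comp_id]
  rw [AlgHom.comp_assoc, AlgHom.comp_assoc, AlgHom.comp_assoc, e1, e2, ← AlgHom.comp_assoc, hn,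
    AlgHom.comp_assoc, hc]

theorem gen_ant {σ : P →ₐ[k] P}
    (hj : D.comp j = (Algebra.TensorProduct.map j j).comp (comulAlgHom k B))
    (he : e.comp j = counitAlgHom k B) (hs : σ.comp j = j.comp (antipodeAlgHom k B)) (b : B) :
    Algebra.TensorProduct.lift σ (.id k P) (fun _ _ => Commute.all _ _) (D (j b)) =
      algebraMap k P (e (j b)) := by
  have h1 : D (j b) = Algebra.TensorProduct.map j j (Coalgebra.comul (R := k) b) :=
    DFunLike.congr_fun hj b
  have h2 : e (j b) = Coalgebra.counit (R := k) b := DFunLike.congr_fun he b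
  have h3 : (Algebra.TensorProduct.lift σ (.id k P) (fun _ _ => Commute.all _ _)).comp
      (Algebra.TensorProduct.map j j) = j.comp (Algebra.TensorProduct.lift
        (antipodeAlgHom k B) (.id k B) (fun _ _ => Commute.all _ _)) := by
    ext x
    · have := DFunLike.congr_fun hs x
      simpa using this
    · simp
  have h4 : Algebra.TensorProduct.lift (antipodeAlgHom k B) (.id k B)
      (fun _ _ => Commute.all _ _) (Coalgebra.comul (R := k) b) =
      algebraMap k B (Coalgebra.counit (R := k) b) := by
    rw [← sum_antipode_mul_eq_algebraMap_counit (ℛ k b)]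
    nth_rewrite 1 [← (ℛ k b).eq]
    simp
  rw [h1, h2, ← AlgHom.comp_apply, h3, AlgHom.comp_apply, h4, AlgHom.commutes]

theorem gen_ant' {σ : P →ₐ[k] P}
    (hj : D.comp j = (Algebra.TensorProduct.map j j).comp (comulAlgHom k B))
    (he : e.comp j = counitAlgHom k B) (hs : σ.comp j = j.comp (antipodeAlgHom k B)) (b : B) :
    Algebra.TensorProduct.lift (.id k P) σ (fun _ _ => Commute.all _ _) (D (j b)) =
      algebraMap k P (e (j b)) := by
  have h1 : D (j b) = Algebra.TensorProduct.map j j (Coalgebra.comul (R := k) b) :=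
    DFunLike.congr_fun hj b
  have h2 : e (j b) = Coalgebra.counit (R := k) b := DFunLike.congr_fun he b
  have h3 : (Algebra.TensorProduct.lift (.id k P) σ (fun _ _ => Commute.all _ _)).comp
      (Algebra.TensorProduct.map j j) = j.comp (Algebra.TensorProduct.lift
        (.id k B) (antipodeAlgHom k B) (fun _ _ => Commute.all _ _)) := by
    ext x
    · simp
    · have := DFunLike.congr_fun hs x
      simpa using this
  have h4 : Algebra.TensorProduct.lift (.id k B) (antipodeAlgHom k B)
      (fun _ _ => Commute.all _ _) (Coalgebra.comul (R := k) b) =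
      algebraMap k B (Coalgebra.counit (R := k) b) := by
    rw [← sum_mul_antipode_eq_algebraMap_counit (ℛ k b)]
    nth_rewrite 1 [← (ℛ k b).eq]
    simp
  rw [h1, h2, ← AlgHom.comp_apply, h3, AlgHom.comp_apply, h4, AlgHom.commutes]

theorem gen_counit (hj : D.comp j = (Algebra.TensorProduct.map j j).comp (comulAlgHom k B))
    (he : e.comp j = counitAlgHom k B) :
    ((Algebra.TensorProduct.lid k P).toAlgHom.comp
      ((Algebra.TensorProduct.map e (.id k P)).comp D)).comp j = (AlgHom.id k P).comp j := by
  have e1 : (Algebra.TensorProduct.map e (.id k P)).comp (D.comp j) =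
      (Algebra.TensorProduct.map (.id k k) j).comp
        ((Algebra.TensorProduct.map (counitAlgHom k B) (.id k B)).comp (comulAlgHom k B)) := by
    rw [hj, ← AlgHom.comp_assoc, ← Algebra.TensorProduct.map_comp, he, ← AlgHom.comp_assoc,
      ← Algebra.TensorProduct.map_comp, AlgHom.id_comp, AlgHom.id_comp, AlgHom.comp_id]
  rw [AlgHom.comp_assoc, AlgHom.comp_assoc, e1]
  ext x
  have h : Algebra.TensorProduct.map (counitAlgHom k B) (.id k B) (comulAlgHom k B x)
      = (1 : k) ⊗ₜ[k] x := Coalgebra.rTensor_counit_comul (R := k) x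
  simp only [AlgHom.comp_apply]
  rw [h]
  simp

theorem gen_counit' (hj : D.comp j = (Algebra.TensorProduct.map j j).comp (comulAlgHom k B))
    (he : e.comp j = counitAlgHom k B) :
    ((Algebra.TensorProduct.rid k k P).toAlgHom.comp
      ((Algebra.TensorProduct.map (.id k P) e).comp D)).comp j = (AlgHom.id k P).comp j := by
  have e1 : (Algebra.TensorProduct.map (.id k P) e).comp (D.comp j) =
      (Algebra.TensorProduct.map j (.id k k)).comp
        ((Algebra.TensorProduct.map (.id k B) (counitAlgHom k B)).comp (comulAlgHom k B)) := by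
    rw [hj, ← AlgHom.comp_assoc, ← Algebra.TensorProduct.map_comp, he, ← AlgHom.comp_assoc,
      ← Algebra.TensorProduct.map_comp, AlgHom.id_comp, AlgHom.id_comp, AlgHom.comp_id]
  rw [AlgHom.comp_assoc, AlgHom.comp_assoc, e1]
  ext x
  have h : Algebra.TensorProduct.map (.id k B) (counitAlgHom k B) (comulAlgHom k B x)
      = x ⊗ₜ[k] (1 : k) := Coalgebra.lTensor_counit_comul (R := k) x
  simp only [AlgHom.comp_apply]
  rw [h]
  simp

end gen

section PushHopf

variable {A : Type w} [CommRing A] [HopfAlgebra k A]
variable {q : Poisson k B} (hq : IsPH q) (f : A →ₐc[k] B)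

/-- The cokernel pair is a bialgebra. -/
@[instance_reducible]
noncomputable def pbialgebra : Bialgebra k (Push q (f : A →ₐ[k] B)) :=
  Bialgebra.ofAlgHom (pcomul hq f) (pcounit hq f)
    (by
      refine Push.hom_ext (r := (Push.poisson q (f : A →ₐ[k] B)).tensor
        ((Push.poisson q (f : A →ₐ[k] B)).tensor (Push.poisson q (f : A →ₐ[k] B)))) ?_ ?_ ?_ ?_
      · exact (isP_assoc _ _ _).comp ((isP_tmap (isP_pcomul hq f) (isP_id _)).comp
          (isP_pcomul hq f))
      · exact (isP_tmap (isP_id _) (isP_pcomul hq f)).comp (isP_pcomul hq f)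
      · exact gen_comul (pcomul_inl hq f)
      · exact gen_comul (pcomul_inr hq f))
    (by
      have h : (Algebra.TensorProduct.lid k (Push q (f : A →ₐ[k] B))).toAlgHom.comp
          ((Algebra.TensorProduct.map (pcounit hq f) (.id k _)).comp (pcomul hq f)) =
          .id k _ := by
        refine Push.hom_ext (r := Push.poisson q (f : A →ₐ[k] B)) ?_ (isP_id _) ?_ ?_
        · exact (isP_lid _).comp ((isP_tmap (isP_pcounit hq f) (isP_id _)).comp
            (isP_pcomul hq f))
        · exact gen_counit (pcomul_inl hq f) rfl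
        · exact gen_counit (pcomul_inr hq f) rfl
      ext x
      have h2 := DFunLike.congr_fun h x
      exact (Algebra.TensorProduct.lid k (Push q (f : A →ₐ[k] B))).injective
        (h2.trans (AlgEquiv.apply_symm_apply _ x).symm))
    (by
      have h : (Algebra.TensorProduct.rid k k (Push q (f : A →ₐ[k] B))).toAlgHom.comp
          ((Algebra.TensorProduct.map (.id k _) (pcounit hq f)).comp (pcomul hq f)) =
          .id k _ := by
        refine Push.hom_ext (r := Push.poisson q (f : A →ₐ[k] B)) ?_ (isP_id _) ?_ ?_
        · exact (isP_rid _).comp ((isP_tmap (isP_id _) (isP_pcounit hq f)).comp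
            (isP_pcomul hq f))
        · exact gen_counit' (pcomul_inl hq f) rfl
        · exact gen_counit' (pcomul_inr hq f) rfl
      ext x
      have h2 := DFunLike.congr_fun h x
      exact (Algebra.TensorProduct.rid k k (Push q (f : A →ₐ[k] B))).injective
        (h2.trans (AlgEquiv.apply_symm_apply _ x).symm))

end PushHopf

section anti

variable {P : Type w} [CommRing P] [Algebra k P] (p : Poisson k P) (σ τ : P →ₐ[k] P) (c : k)

omit [HopfAlgebra k B] [CommRing B] in
theorem lift_tbr (hσ : ∀ x y, σ (p.br x y) = c • p.br (σ x) (σ y))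
    (hτ : ∀ x y, τ (p.br x y) = - (c • p.br (τ x) (τ y))) (X Y : P ⊗[k] P) :
    Algebra.TensorProduct.lift σ τ (fun _ _ => Commute.all _ _) (tbr p p X Y) =
      c • LinearMap.mul' k P (TensorProduct.map
        (p.br (Algebra.TensorProduct.lift σ τ (fun _ _ => Commute.all _ _) X) ∘ₗ σ.toLinearMap)
        τ.toLinearMap Y) -
      c • LinearMap.mul' k P (TensorProduct.map σ.toLinearMap
        (p.br.flip (Algebra.TensorProduct.lift σ τ (fun _ _ => Commute.all _ _) Y) ∘ₗ
          τ.toLinearMap) X) := by
  induction X with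
  | zero => simp
  | add x₁ x₂ h₁ h₂ =>
    simp only [map_add, LinearMap.add_apply, h₁, h₂, LinearMap.add_comp,
      TensorProduct.map_add_left, smul_add]
    abel
  | tmul x x' =>
    induction Y with
    | zero => simp
    | add x₁ x₂ h₁ h₂ =>
      simp only [map_add, h₁, h₂, LinearMap.add_comp,
        TensorProduct.map_add_right, smul_add, LinearMap.add_apply]
      abel
    | tmul y y' =>
      simp only [tbr_tmul, map_add, Algebra.TensorProduct.lift_tmul, TensorProduct.map_tmul,
        LinearMap.mul'_apply, LinearMap.comp_apply, AlgHom.toLinearMap_apply, hσ, hτ, map_mul,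
        LinearMap.flip_apply, p.leibniz, p.leibniz_left]
      simp only [Algebra.smul_def]
      ring

omit [HopfAlgebra k B] [CommRing B] in
theorem lift_tbr_eq_zero (hσ : ∀ x y, σ (p.br x y) = c • p.br (σ x) (σ y))
    (hτ : ∀ x y, τ (p.br x y) = - (c • p.br (τ x) (τ y))) (X Y : P ⊗[k] P) (r s : k)
    (hX : Algebra.TensorProduct.lift σ τ (fun _ _ => Commute.all _ _) X = algebraMap k P r)
    (hY : Algebra.TensorProduct.lift σ τ (fun _ _ => Commute.all _ _) Y = algebraMap k P s) :
    Algebra.TensorProduct.lift σ τ (fun _ _ => Commute.all _ _) (tbr p p X Y) = 0 := by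
  rw [lift_tbr p σ τ c hσ hτ, hX, hY]
  have h1 : p.br (algebraMap k P r) = 0 := by
    ext x; exact p.br_algebraMap_left x r
  have h2 : p.br.flip (algebraMap k P s) = 0 := by
    ext x; exact p.br_algebraMap x s
  rw [h1, h2]
  simp

end anti

section PushHopf2

variable {A : Type w} [CommRing A] [HopfAlgebra k A]
variable {q : Poisson k B} (hq : IsPH q) (f : A →ₐc[k] B)

theorem pantipode_br (x y : Push q (f : A →ₐ[k] B)) :
    pantipode hq f ((Push.poisson q (f : A →ₐ[k] B)).br x y) =
      - (Push.poisson q (f : A →ₐ[k] B)).br (pantipode hq f x) (pantipode hq f y) :=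
  Push.isP_lift (f := (f : A →ₐ[k] B)) (Push.poisson q (f : A →ₐ[k] B)).neg _ _ _ _ _ x y

theorem pant_left (x : Push q (f : A →ₐ[k] B)) :
    Algebra.TensorProduct.lift (pantipode hq f) (.id k _) (fun _ _ => Commute.all _ _)
      (pcomul hq f x) = algebraMap k _ (pcounit hq f x) := by
  induction x using Push.induction with
  | hl b => exact gen_ant (pcomul_inl hq f) rfl rfl b
  | hr b => exact gen_ant (pcomul_inr hq f) rfl rfl b
  | ha x y hx hy => simp only [map_add, hx, hy]
  | hm x y hx hy => simp only [map_mul, hx, hy]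
  | hb x y hx hy =>
    have h1 : pcomul hq f ((Push.poisson q (f : A →ₐ[k] B)).br x y) =
      tbr _ _ (pcomul hq f x) (pcomul hq f y) := isP_pcomul hq f x y
    have h2 : pcounit hq f ((Push.poisson q (f : A →ₐ[k] B)).br x y) = 0 :=
      isP_pcounit hq f x y
    rw [h1, h2, map_zero]
    exact lift_tbr_eq_zero _ _ _ (-1)
      (by intro x y; rw [pantipode_br, neg_smul, one_smul])
      (by intro x y; rw [neg_smul, one_smul, neg_neg]; rfl) _ _ _ _ hx hy

theorem pant_right (x : Push q (f : A →ₐ[k] B)) :
    Algebra.TensorProduct.lift (.id k _) (pantipode hq f) (fun _ _ => Commute.all _ _)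
      (pcomul hq f x) = algebraMap k _ (pcounit hq f x) := by
  induction x using Push.induction with
  | hl b => exact gen_ant' (pcomul_inl hq f) rfl rfl b
  | hr b => exact gen_ant' (pcomul_inr hq f) rfl rfl b
  | ha x y hx hy => simp only [map_add, hx, hy]
  | hm x y hx hy => simp only [map_mul, hx, hy]
  | hb x y hx hy =>
    have h1 : pcomul hq f ((Push.poisson q (f : A →ₐ[k] B)).br x y) =
      tbr _ _ (pcomul hq f x) (pcomul hq f y) := isP_pcomul hq f x y
    have h2 : pcounit hq f ((Push.poisson q (f : A →ₐ[k] B)).br x y) = 0 :=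
      isP_pcounit hq f x y
    rw [h1, h2, map_zero]
    exact lift_tbr_eq_zero _ _ _ 1
      (by intro x y; rw [one_smul]; rfl)
      (by intro x y; rw [pantipode_br, one_smul]) _ _ _ _ hx hy

/-- The cokernel pair is a Hopf algebra. -/
@[instance_reducible]
noncomputable def phopf : HopfAlgebra k (Push q (f : A →ₐ[k] B)) :=
  letI := pbialgebra hq f
  HopfAlgebra.ofAlgHom (pantipode hq f) (AlgHom.ext fun x => pant_left hq f x)
    (AlgHom.ext fun x => pant_right hq f x)

theorem phopf_isPH : @IsPH k (Push q (f : A →ₐ[k] B)) _ _ (phopf hq f)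
    (Push.poisson q (f : A →ₐ[k] B)) :=
  letI := phopf hq f
  ⟨isP_pcomul hq f, isP_pcounit hq f⟩

/-- The left inclusion as a morphism of bialgebras. -/
noncomputable def inlB : letI := phopf hq f; B →ₐc[k] Push q (f : A →ₐ[k] B) :=
  letI := phopf hq f
  BialgHom.ofAlgHom (Push.inl q (f : A →ₐ[k] B)) rfl rfl

/-- The right inclusion as a morphism of bialgebras. -/
noncomputable def inrB : letI := phopf hq f; B →ₐc[k] Push q (f : A →ₐ[k] B) :=
  letI := phopf hq f
  BialgHom.ofAlgHom (Push.inr q (f : A →ₐ[k] B)) rfl rfl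

end PushHopf2

end Poisson

end R641.PH
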