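import Pool.Agent.R641.PH.Cot

/-!
# The ideal generated by the augmentation ideal of a Poisson Hopf subalgebra
-/

set_option autoImplicit false

open scoped TensorProduct
open Coalgebra Bialgebra HopfAlgebra

namespace R641.PH

namespace Poisson

universe u v w x

section quot

variable {k : Type u} {B : Type v} {H : Type w} [CommRing k] [CommRing B] [Algebra k B]
  [CommRing H] [Algebra k H] (q : Poisson k B) (π : B →ₐ[k] H)

/-- The Poisson structure on a quotient. -/
theorem exists_quot (hπ : Function.Surjective π) (hk : ∀ x y : B, π y = 0 → π (q.br x y) = 0) :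
    ∃ r : Poisson k H, IsP q r π := by
  let s : H → B := Function.surjInv hπ
  have hs : ∀ h, π (s h) = h := Function.surjInv_eq hπ
  have hbr : ∀ x y : B, π (q.br (s (π x)) (s (π y))) = π (q.br x y) := by
    intro x y
    have h1 : π (q.br (s (π x)) (s (π y) - y)) = 0 := hk _ _ (by rw [map_sub, hs, sub_self])
    have h2 : π (q.br y (s (π x) - x)) = 0 := hk _ _ (by rw [map_sub, hs, sub_self])
    rw [map_sub, map_sub, sub_eq_zero] at h1 h2
    rw [h1, q.skew, map_neg, h2, ← map_neg, ← q.skew]
  have key : ∀ x y : H, ∃ a b : B, π a = x ∧ π b = y := fun x y => by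
    obtain ⟨a, ha⟩ := hπ x
    obtain ⟨b, hb⟩ := hπ y
    exact ⟨a, b, ha, hb⟩
  refine ⟨{
    br := LinearMap.mk₂ k (fun x y => π (q.br (s x) (s y))) ?_ ?_ ?_ ?_
    alt := ?_
    jacobi := ?_
    leibniz := ?_ }, ?_⟩
  · intro x y z
    obtain ⟨a, rfl⟩ := hπ x
    obtain ⟨b, rfl⟩ := hπ y
    obtain ⟨c, rfl⟩ := hπ z
    rw [← map_add, hbr, hbr, hbr, map_add, LinearMap.add_apply, map_add]
  · intro c x y
    obtain ⟨a, rfl⟩ := hπ x
    obtain ⟨b, rfl⟩ := hπ y
    rw [← map_smul, hbr, hbr, map_smul, LinearMap.smul_apply, map_smul]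
  · intro x y z
    obtain ⟨a, rfl⟩ := hπ x
    obtain ⟨b, rfl⟩ := hπ y
    obtain ⟨c, rfl⟩ := hπ z
    rw [← map_add, hbr, hbr, hbr, map_add, map_add]
  · intro c x y
    obtain ⟨a, rfl⟩ := hπ x
    obtain ⟨b, rfl⟩ := hπ y
    rw [← map_smul, hbr, hbr, map_smul, map_smul]
  · intro x
    obtain ⟨a, rfl⟩ := hπ x
    simp only [LinearMap.mk₂_apply]
    rw [hbr, q.alt, map_zero]
  · intro x y z
    obtain ⟨a, rfl⟩ := hπ x
    obtain ⟨b, rfl⟩ := hπ y
    obtain ⟨c, rfl⟩ := hπ z
    simp only [LinearMap.mk₂_apply, hbr]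
    rw [← map_add, ← map_add, q.jacobi, map_zero]
  · intro x y z
    obtain ⟨a, rfl⟩ := hπ x
    obtain ⟨b, rfl⟩ := hπ y
    obtain ⟨c, rfl⟩ := hπ z
    simp only [LinearMap.mk₂_apply]
    rw [← map_mul, hbr, hbr, hbr, q.leibniz, map_add, map_mul, map_mul]
  · intro x y
    simp only [LinearMap.mk₂_apply]
    rw [hbr]

end quot

section der

variable {k : Type u} {B : Type v} {H : Type w} [CommRing k] [CommRing B] [HopfAlgebra k B]
  [CommRing H] [Algebra k H] (π : B →ₐ[k] H) (d : B →ₗ[k] H)

/-- the invariant derivation attached to a derivation -/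
noncomputable def inv (π : B →ₐ[k] H) (d : B →ₗ[k] H) : WithConv (B →ₗ[k] H) :=
  WithConv.toConv (π.toLinearMap ∘ₗ antipode k) * WithConv.toConv d

theorem pi_inv : WithConv.toConv π.toLinearMap *
    WithConv.toConv (π.toLinearMap ∘ₗ antipode k) = 1 := by
  have h := LinearMap.algHom_comp_convMul_distrib (R := k) (C := B) π
    (WithConv.toConv LinearMap.id) (WithConv.toConv (antipode k))
  rw [LinearMap.id_mul_antipode] at h
  apply WithConv.ofConv_injective
  refine (Eq.trans ?_ h.symm).trans ?_
  · rfl
  · ext b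
    simp [LinearMap.convOne_def]

theorem eq_mul_inv : WithConv.toConv d = WithConv.toConv π.toLinearMap * inv π d := by
  rw [inv, ← mul_assoc, pi_inv, one_mul]

theorem inv_mul_apply (hd : ∀ x y : B, d (x * y) = π x * d y + π y * d x) (x y : B) :
    (inv π d).ofConv (x * y) = Coalgebra.counit (R := k) x • (inv π d).ofConv y +
      Coalgebra.counit (R := k) y • (inv π d).ofConv x := by
  set X := ℛ k x
  set Y := ℛ k y
  have h1 : (inv π d).ofConv (x * y) = ∑ z ∈ X.index ×ˢ Y.index,
      π (antipode k (X.left z.1 * Y.left z.2)) * d (X.right z.1 * Y.right z.2) :=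
    (X.mul Y).convMul_apply (WithConv.toConv (π.toLinearMap ∘ₗ antipode k)) (WithConv.toConv d)
  have h2 : (inv π d).ofConv x = ∑ i ∈ X.index, π (antipode k (X.left i)) * d (X.right i) :=
    X.convMul_apply (WithConv.toConv (π.toLinearMap ∘ₗ antipode k)) (WithConv.toConv d)
  have h3 : (inv π d).ofConv y = ∑ i ∈ Y.index, π (antipode k (Y.left i)) * d (Y.right i) :=
    Y.convMul_apply (WithConv.toConv (π.toLinearMap ∘ₗ antipode k)) (WithConv.toConv d)
  have h4 : ∑ i ∈ X.index, π (antipode k (X.left i)) * π (X.right i) =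
      algebraMap k H (Coalgebra.counit (R := k) x) := by
    have := congrArg π (sum_antipode_mul_eq_algebraMap_counit X)
    simpa using this
  have h5 : ∑ i ∈ Y.index, π (antipode k (Y.left i)) * π (Y.right i) =
      algebraMap k H (Coalgebra.counit (R := k) y) := by
    have := congrArg π (sum_antipode_mul_eq_algebraMap_counit Y)
    simpa using this
  rw [h1, h2, h3, Algebra.smul_def, Algebra.smul_def, ← h4, ← h5, Finset.sum_product,
    Finset.sum_mul_sum, Finset.sum_mul_sum, Finset.sum_comm (s := Y.index),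
    ← Finset.sum_add_distrib]
  refine Finset.sum_congr rfl fun i _ => ?_
  rw [← Finset.sum_add_distrib]
  refine Finset.sum_congr rfl fun j _ => ?_
  rw [hd, antipode_mul_distrib, map_mul]
  ring

/-- A derivation which vanishes on the image of `A` is zero if `A` maps onto the cotangent
space. -/
theorem der_eq_zero {A : Type x} [CommRing A] [HopfAlgebra k A] (f : A →ₐc[k] B)
    (hd : ∀ x y : B, d (x * y) = π x * d y + π y * d x) (hf : ∀ a : A, d (f a) = 0)
    (hs : ∀ b : B, Coalgebra.counit (R := k) b = 0 →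
      ∃ a : A, Coalgebra.counit (R := k) a = 0 ∧ b - f a ∈ aug k B ^ 2) : d = 0 := by
  have h1 : ∀ a : A, (inv π d).ofConv (f a) = 0 := by
    intro a
    set X := ℛ k a
    have := (X.induced f).convMul_apply (WithConv.toConv (π.toLinearMap ∘ₗ antipode k))
      (WithConv.toConv d)
    refine this.trans (Finset.sum_eq_zero fun i _ => ?_)
    change _ * d (f _) = 0
    rw [hf, mul_zero]
  have h2 : ∀ u ∈ aug k B ^ 2, (inv π d).ofConv u = 0 := by
    intro u hu
    rw [pow_two] at hu
    induction hu using Submodule.mul_induction_on' with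
    | mem_mul_mem a ha b hb =>
      rw [inv_mul_apply π d hd, (mem_aug a).mp ha, (mem_aug b).mp hb, zero_smul, zero_smul,
        add_zero]
    | add a _ b _ ha hb => rw [map_add, ha, hb, add_zero]
  have h3 : (inv π d).ofConv = 0 := by
    ext b
    obtain ⟨a, _, ha⟩ := hs (b - algebraMap k B (Coalgebra.counit (R := k) b)) (by simp)
    have h4 := h2 _ ha
    rw [map_sub, map_sub, h1, sub_zero] at h4
    have h5 : (inv π d).ofConv (algebraMap k B (Coalgebra.counit (R := k) b)) = 0 := by
      have := h1 (algebraMap k A (Coalgebra.counit (R := k) b))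
      rwa [AlgHomClass.commutes] at this
    rw [h5, sub_zero] at h4
    exact h4
  have h6 : inv π d = 0 := by
    apply WithConv.ofConv_injective
    exact h3
  have h7 := eq_mul_inv π d
  rw [h6, mul_zero] at h7
  exact congrArg WithConv.ofConv h7

end der

section main

theorem aug_le (hL : S_L) {k A B : Type} [Field k] [CommRing A] [CommRing B] [HopfAlgebra k A]
    [HopfAlgebra k B] (p : Poisson k A) (q : Poisson k B) (hp : IsPH p) (hq : IsPH q)
    (f : A →ₐc[k] B) (hf : IsP p q (f : A →ₐ[k] B))
    (hc : Push.inl q (f : A →ₐ[k] B) = Push.inr q (f : A →ₐ[k] B)) (b : B)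
    (hb : Coalgebra.counit (R := k) b = 0) :
    b ∈ Ideal.span (f '' {a : A | Coalgebra.counit (R := k) a = 0}) := by
  set J : Ideal B := Ideal.span (f '' {a : A | Coalgebra.counit (R := k) a = 0}) with hJ
  let π : B →ₐ[k] B ⧸ J := Ideal.Quotient.mkₐ k J
  have hπ : Function.Surjective π := Ideal.Quotient.mkₐ_surjective k J
  have hker : ∀ x : B, π x = 0 ↔ x ∈ J := fun x => Ideal.Quotient.eq_zero_iff_mem
  have hπf : ∀ a : A, π (f a) = algebraMap k _ (Coalgebra.counit (R := k) a) := by
    intro a
    have h1 : f (a - algebraMap k A (Coalgebra.counit (R := k) a)) ∈ J :=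
      Ideal.subset_span ⟨_, by simp, rfl⟩
    have h2 := (hker _).mpr h1
    rw [map_sub, AlgHomClass.commutes, map_sub, AlgHom.commutes, sub_eq_zero] at h2
    exact h2
  have hs := cot_surj' hL p q hq f hf hc
  -- the brackets with elements of `A` lie in `J`
  have hbr : ∀ (x : B) (a : A), π (q.br x (f a)) = 0 := by
    intro x a
    have h1 : π.toLinearMap ∘ₗ q.br.flip (f a) = 0 := by
      refine der_eq_zero π _ f ?_ ?_ hs
      · intro x y
        simp only [LinearMap.comp_apply, LinearMap.flip_apply, AlgHom.toLinearMap_apply]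
        rw [q.leibniz_left, map_add, map_mul, map_mul]
      · intro a'
        simp only [LinearMap.comp_apply, LinearMap.flip_apply, AlgHom.toLinearMap_apply]
        have : f (p.br a' a) = q.br (f a') (f a) := hf a' a
        rw [← this, hπf, hp.counit_br, map_zero]
    exact DFunLike.congr_fun h1 x
  have hst : ∀ x y : B, π y = 0 → π (q.br x y) = 0 := by
    intro x y hy
    rw [hker] at hy
    induction hy using Submodule.span_induction with
    | mem y hy =>
      obtain ⟨a, _, rfl⟩ := hy
      exact hbr x a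
    | zero => rw [map_zero, map_zero]
    | add y z _ _ hy hz => rw [map_add, map_add, hy, hz, add_zero]
    | smul c y hy' hy =>
      rw [smul_eq_mul, q.leibniz, map_add, map_mul, map_mul, hy, mul_zero, add_zero,
        (hker y).mpr hy', mul_zero]
  obtain ⟨r, hr⟩ := exists_quot q π hπ hst
  -- the two morphisms
  let g : B →ₐ[k] B ⊗[k] (B ⧸ J) :=
    (Algebra.TensorProduct.map (AlgHom.id k B) π).comp (comulAlgHom k B)
  let h : B →ₐ[k] B ⊗[k] (B ⧸ J) := Algebra.TensorProduct.includeLeft
  have hg : IsP q (q.tensor r) g := (isP_tmap (isP_id q) hr).comp hq.comul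
  have hh : IsP q (q.tensor r) h := isP_includeLeft q r
  have hgh : g.comp (f : A →ₐ[k] B) = h.comp (f : A →ₐ[k] B) := by
    ext a
    change Algebra.TensorProduct.map (AlgHom.id k B) π (Coalgebra.comul (R := k) (f a)) =
      (f a) ⊗ₜ[k] (1 : B ⧸ J)
    rw [← CoalgHomClass.map_comp_comul_apply]
    have h1 : ∀ X : A ⊗[k] A, Algebra.TensorProduct.map (AlgHom.id k B) π
        (TensorProduct.map (f : A →ₗ[k] B) (f : A →ₗ[k] B) X) =
        (f (TensorProduct.rid k A ((Coalgebra.counit (R := k) (A := A)).lTensor A X)))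
          ⊗ₜ[k] (1 : B ⧸ J) := by
      intro X
      induction X with
      | zero => simp
      | add X Y hX hY => simp only [map_add, TensorProduct.add_tmul, hX, hY]
      | tmul x y =>
        simp only [TensorProduct.map_tmul, Algebra.TensorProduct.map_tmul,
          LinearMap.lTensor_tmul, TensorProduct.rid_tmul, map_smul]
        change f x ⊗ₜ[k] (π (f y)) = _
        rw [hπf, Algebra.algebraMap_eq_smul_one, TensorProduct.tmul_smul,
          TensorProduct.smul_tmul']
    have h2 := h1 (Coalgebra.comul a)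
    rw [Coalgebra.lTensor_counit_comul] at h2
    refine h2.trans ?_
    simp
  have heq : g = h := by
    rw [← Push.lift_inl (f := (f : A →ₐ[k] B)) (q.tensor r) g h hg hh hgh, hc, Push.lift_inr]
  have h3 := DFunLike.congr_fun heq b
  change Algebra.TensorProduct.map (AlgHom.id k B) π (Coalgebra.comul (R := k) b) =
      b ⊗ₜ[k] (1 : B ⧸ J) at h3
  have h4 : ∀ X : B ⊗[k] B, TensorProduct.lid k _
      ((Coalgebra.counit (R := k) (A := B)).rTensor _
        (Algebra.TensorProduct.map (AlgHom.id k B) π X)) =
      π (TensorProduct.lid k B ((Coalgebra.counit (R := k) (A := B)).rTensor B X)) := by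
    intro X
    induction X with
    | zero => simp
    | add X Y hX hY => simp only [map_add, hX, hY]
    | tmul x y => simp
  have h5 := h4 (Coalgebra.comul b)
  rw [h3, Coalgebra.rTensor_counit_comul] at h5
  rw [← hker]
  simp only [LinearMap.rTensor_tmul, hb, TensorProduct.zero_tmul, map_zero,
    TensorProduct.lid_tmul, one_smul] at h5
  exact h5.symm

end main

end Poisson

end R641.PH
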