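import Pool.Agent.R641.PH.Basic

/-!
# The cokernel pair of a morphism of Poisson algebras
-/

set_option autoImplicit false

open scoped TensorProduct

namespace R641.PH

namespace Poisson

universe u v w

/-- Formal expressions. -/
inductive Pre (B : Type v) : Type v
  | l : B → Pre B
  | r : B → Pre B
  | add : Pre B → Pre B → Pre B
  | mul : Pre B → Pre B → Pre B
  | br : Pre B → Pre B → Pre B

variable {k : Type u} {A : Type w} {B : Type v} [CommRing k] [CommRing A] [Algebra k A]
  [CommRing B] [Algebra k B]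

/-- The congruence generated by the axioms of Poisson algebras and `l (f a) = r (f a)`. -/
inductive Rel (q : Poisson k B) (f : A → B) : Pre B → Pre B → Prop
  | refl (x : Pre B) : Rel q f x x
  | symm {x y : Pre B} : Rel q f x y → Rel q f y x
  | trans {x y z : Pre B} : Rel q f x y → Rel q f y z → Rel q f x z
  | add_congr {x y x' y' : Pre B} : Rel q f x x' → Rel q f y y' → Rel q f (x.add y) (x'.add y')
  | mul_congr {x y x' y' : Pre B} : Rel q f x x' → Rel q f y y' → Rel q f (x.mul y) (x'.mul y')
  | br_congr {x y x' y' : Pre B} : Rel q f x x' → Rel q f y y' → Rel q f (x.br y) (x'.br y')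
  | add_comm (x y : Pre B) : Rel q f (x.add y) (y.add x)
  | add_assoc (x y z : Pre B) : Rel q f ((x.add y).add z) (x.add (y.add z))
  | add_zero (x : Pre B) : Rel q f (x.add (.l 0)) x
  | add_neg (x : Pre B) : Rel q f (x.add ((Pre.l (-1)).mul x)) (.l 0)
  | mul_comm (x y : Pre B) : Rel q f (x.mul y) (y.mul x)
  | mul_assoc (x y z : Pre B) : Rel q f ((x.mul y).mul z) (x.mul (y.mul z))
  | mul_one (x : Pre B) : Rel q f (x.mul (.l 1)) x
  | mul_add (x y z : Pre B) : Rel q f (x.mul (y.add z)) ((x.mul y).add (x.mul z))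
  | l_add (a b : B) : Rel q f (.l (a + b)) ((Pre.l a).add (.l b))
  | l_mul (a b : B) : Rel q f (.l (a * b)) ((Pre.l a).mul (.l b))
  | l_br (a b : B) : Rel q f (.l (q.br a b)) ((Pre.l a).br (.l b))
  | r_add (a b : B) : Rel q f (.r (a + b)) ((Pre.r a).add (.r b))
  | r_mul (a b : B) : Rel q f (.r (a * b)) ((Pre.r a).mul (.r b))
  | r_br (a b : B) : Rel q f (.r (q.br a b)) ((Pre.r a).br (.r b))
  | glue (a : A) : Rel q f (.l (f a)) (.r (f a))
  | br_add (x y z : Pre B) : Rel q f (x.br (y.add z)) ((x.br y).add (x.br z))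
  | br_add_left (x y z : Pre B) : Rel q f ((y.add z).br x) ((y.br x).add (z.br x))
  | br_smul (x y : Pre B) (c : k) : Rel q f (x.br ((Pre.l (algebraMap k B c)).mul y))
      ((Pre.l (algebraMap k B c)).mul (x.br y))
  | br_smul_left (x y : Pre B) (c : k) : Rel q f (((Pre.l (algebraMap k B c)).mul y).br x)
      ((Pre.l (algebraMap k B c)).mul (y.br x))
  | alt (x : Pre B) : Rel q f (x.br x) (.l 0)
  | jacobi (x y z : Pre B) : Rel q f (((x.br (y.br z)).add (y.br (z.br x))).add (z.br (x.br y))) (.l 0)
  | leibniz (x y z : Pre B) : Rel q f (x.br (y.mul z)) (((x.br y).mul z).add (y.mul (x.br z)))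

/-- The cokernel pair. -/
def Push (q : Poisson k B) (f : A → B) : Type v := Quot (Rel q f)

namespace Push

variable (q : Poisson k B) (f : A → B)

omit [CommRing A] [Algebra k A] in
theorem sound {x y : Pre B} (h : Rel q f x y) : (Quot.mk _ x : Push q f) = Quot.mk _ y :=
  Quot.sound h

instance : Add (Push q f) :=
  ⟨Quot.map₂ Pre.add (fun _ _ _ h => .add_congr (.refl _) h) (fun _ _ _ h => .add_congr h (.refl _))⟩

instance : Mul (Push q f) :=
  ⟨Quot.map₂ Pre.mul (fun _ _ _ h => .mul_congr (.refl _) h) (fun _ _ _ h => .mul_congr h (.refl _))⟩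

instance : Zero (Push q f) := ⟨Quot.mk _ (.l 0)⟩

instance : One (Push q f) := ⟨Quot.mk _ (.l 1)⟩

instance : Neg (Push q f) := ⟨fun x => Mul.mul (Quot.mk _ (.l (-1)) : Push q f) x⟩

omit [CommRing A] [Algebra k A] in
theorem rel_mul_zero (x : Pre B) : Rel q f (x.mul (.l 0)) (.l 0) := by
  have h1 : Rel q f (x.mul (.l 0)) ((x.mul (.l 0)).add (x.mul (.l 0))) :=
    .trans (.mul_congr (.refl x) (.symm (.add_zero (.l 0)))) (.mul_add x _ _)
  have h2 : Rel q f (((x.mul (.l 0)).add (x.mul (.l 0))).add
      ((Pre.l (-1)).mul (x.mul (.l 0)))) (x.mul (.l 0)) :=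
    .trans (.add_assoc _ _ _) (.trans (.add_congr (.refl _) (.add_neg _)) (.add_zero _))
  exact .trans (.symm h2) (.trans (.add_congr (.symm h1) (.refl _)) (.add_neg _))


instance : CommRing (Push q f) where
  add_assoc := by rintro ⟨x⟩ ⟨y⟩ ⟨z⟩; exact sound q f (.add_assoc x y z)
  add_comm := by rintro ⟨x⟩ ⟨y⟩; exact sound q f (.add_comm x y)
  zero_add := by rintro ⟨x⟩; exact sound q f (.trans (.add_comm _ _) (.add_zero x))
  add_zero := by rintro ⟨x⟩; exact sound q f (.add_zero x)
  mul_assoc := by rintro ⟨x⟩ ⟨y⟩ ⟨z⟩; exact sound q f (.mul_assoc x y z)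
  mul_comm := by rintro ⟨x⟩ ⟨y⟩; exact sound q f (.mul_comm x y)
  one_mul := by rintro ⟨x⟩; exact sound q f (.trans (.mul_comm _ _) (.mul_one x))
  mul_one := by rintro ⟨x⟩; exact sound q f (.mul_one x)
  left_distrib := by rintro ⟨x⟩ ⟨y⟩ ⟨z⟩; exact sound q f (.mul_add x y z)
  right_distrib := by
    rintro ⟨x⟩ ⟨y⟩ ⟨z⟩
    exact sound q f (.trans (.mul_comm _ _) (.trans (.mul_add z x y)
      (.add_congr (.mul_comm _ _) (.mul_comm _ _))))
  zero_mul := by
    rintro ⟨x⟩
    exact sound q f (.trans (.mul_comm _ _) (rel_mul_zero q f x))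
  mul_zero := by
    rintro ⟨x⟩
    exact sound q f (rel_mul_zero q f x)
  neg_add_cancel := by
    rintro ⟨x⟩; exact sound q f (.trans (.add_comm _ _) (.add_neg x))
  nsmul := nsmulRec
  zsmul := zsmulRec

/-- the left inclusion as a ring homomorphism -/
def inlRing : B →+* Push q f where
  toFun b := Quot.mk _ (.l b)
  map_zero' := rfl
  map_one' := rfl
  map_add' a b := sound q f (.l_add a b)
  map_mul' a b := sound q f (.l_mul a b)

instance : Algebra k (Push q f) := ((inlRing q f).comp (algebraMap k B)).toAlgebra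

/-- The left inclusion. -/
def inl : B →ₐ[k] Push q f where
  __ := inlRing q f
  commutes' _ := rfl

/-- The bracket. -/
def brk : Push q f → Push q f → Push q f :=
  Quot.map₂ Pre.br (fun _ _ _ h => .br_congr (.refl _) h) (fun _ _ _ h => .br_congr h (.refl _))

/-- The Poisson structure of the cokernel pair. -/
def poisson : Poisson k (Push q f) where
  br := LinearMap.mk₂ k (brk q f)
    (by rintro ⟨x⟩ ⟨y⟩ ⟨z⟩; exact sound q f (.br_add_left z x y))
    (by rintro c ⟨x⟩ ⟨y⟩; exact sound q f (.br_smul_left y x c))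
    (by rintro ⟨x⟩ ⟨y⟩ ⟨z⟩; exact sound q f (.br_add x y z))
    (by rintro c ⟨x⟩ ⟨y⟩; exact sound q f (.br_smul x y c))
  alt := by rintro ⟨x⟩; exact sound q f (.alt x)
  jacobi := by rintro ⟨x⟩ ⟨y⟩ ⟨z⟩; exact sound q f (.jacobi x y z)
  leibniz := by rintro ⟨x⟩ ⟨y⟩ ⟨z⟩; exact sound q f (.leibniz x y z)

omit [CommRing A] [Algebra k A] in
theorem isP_inl : IsP q (poisson q f) (inl q f) := fun a b => sound q f (.l_br a b)

end Push

section lift

variable {q : Poisson k B} {f : A →ₐ[k] B}

/-- The right inclusion. -/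
def Push.inr (q : Poisson k B) (f : A →ₐ[k] B) : B →ₐ[k] Push q f where
  toFun b := Quot.mk _ (.r b)
  map_zero' := by
    have := Push.sound q f (Rel.glue (q := q) (f := f) 0)
    rw [map_zero] at this
    exact this.symm
  map_one' := by
    have := Push.sound q f (Rel.glue (q := q) (f := f) 1)
    rw [map_one] at this
    exact this.symm
  map_add' a b := Push.sound q f (.r_add a b)
  map_mul' a b := Push.sound q f (.r_mul a b)
  commutes' c := by
    have := Push.sound q f (Rel.glue (q := q) (f := f) (algebraMap k A c))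
    rw [AlgHom.commutes] at this
    exact this.symm

theorem Push.isP_inr : IsP q (Push.poisson q f) (Push.inr q f) :=
  fun a b => Push.sound q f (.r_br a b)

theorem Push.inl_comp : (Push.inl q f).comp f = (Push.inr q f).comp f := by
  ext a
  exact Push.sound q f (.glue a)

/-- Induction principle. -/
theorem Push.induction {M : Push q f → Prop} (hl : ∀ b, M (Push.inl q f b))
    (hr : ∀ b, M (Push.inr q f b)) (ha : ∀ x y, M x → M y → M (x + y))
    (hm : ∀ x y, M x → M y → M (x * y)) (hb : ∀ x y, M x → M y → M ((Push.poisson q f).br x y))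
    (x : Push q f) : M x := by
  obtain ⟨x⟩ := x
  induction x with
  | l b => exact hl b
  | r b => exact hr b
  | add x y hx hy => exact ha _ _ hx hy
  | mul x y hx hy => exact hm _ _ hx hy
  | br x y hx hy => exact hb _ _ hx hy

variable {C : Type*} [CommRing C] [Algebra k C] (r : Poisson k C)

/-- evaluation of formal expressions -/
def Pre.eval (g h : B → C) : Pre B → C
  | .l b => g b
  | .r b => h b
  | .add x y => eval g h x + eval g h y
  | .mul x y => eval g h x * eval g h y
  | .br x y => r.br (eval g h x) (eval g h y)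

theorem Pre.eval_rel {g h : B →ₐ[k] C} (hg : IsP q r g) (hh : IsP q r h)
    (e : g.comp f = h.comp f) {x y : Pre B} (hxy : Rel q f x y) :
    Pre.eval r g h x = Pre.eval r g h y := by
  induction hxy with
  | refl x => rfl
  | symm _ ih => exact ih.symm
  | trans _ _ h1 h2 => exact h1.trans h2
  | add_congr _ _ h1 h2 => simp only [Pre.eval, h1, h2]
  | mul_congr _ _ h1 h2 => simp only [Pre.eval, h1, h2]
  | br_congr _ _ h1 h2 => simp only [Pre.eval, h1, h2]
  | add_comm x y => simp only [Pre.eval]; ring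
  | add_assoc x y z => simp only [Pre.eval]; ring
  | add_zero x => simp only [Pre.eval, map_zero]; ring
  | add_neg x => simp only [Pre.eval, map_zero, map_neg, map_one]; ring
  | mul_comm x y => simp only [Pre.eval]; ring
  | mul_assoc x y z => simp only [Pre.eval]; ring
  | mul_one x => simp only [Pre.eval, map_one]; ring
  | mul_add x y z => simp only [Pre.eval]; ring
  | l_add a b => simp only [Pre.eval, map_add]
  | l_mul a b => simp only [Pre.eval, map_mul]
  | l_br a b => simp only [Pre.eval]; exact hg a b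
  | r_add a b => simp only [Pre.eval, map_add]
  | r_mul a b => simp only [Pre.eval, map_mul]
  | r_br a b => simp only [Pre.eval]; exact hh a b
  | glue a => simp only [Pre.eval]; exact DFunLike.congr_fun e a
  | br_add x y z => simp only [Pre.eval, map_add]
  | br_add_left x y z => simp only [Pre.eval, map_add, LinearMap.add_apply]
  | br_smul x y c =>
    simp only [Pre.eval, AlgHom.commutes]
    rw [← Algebra.smul_def, map_smul, ← Algebra.smul_def]
  | br_smul_left x y c =>
    simp only [Pre.eval, AlgHom.commutes]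
    rw [← Algebra.smul_def, map_smul, ← Algebra.smul_def, LinearMap.smul_apply]
  | alt x => simp only [Pre.eval, map_zero]; exact r.alt _
  | jacobi x y z => simp only [Pre.eval, map_zero]; exact r.jacobi _ _ _
  | leibniz x y z => simp only [Pre.eval]; exact r.leibniz _ _ _

/-- The universal property. -/
def Push.lift (g h : B →ₐ[k] C) (hg : IsP q r g) (hh : IsP q r h)
    (e : g.comp f = h.comp f) : Push q f →ₐ[k] C where
  toFun := Quot.lift (Pre.eval r g h) (fun _ _ hxy => Pre.eval_rel r hg hh e hxy)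
  map_zero' := map_zero g
  map_one' := map_one g
  map_add' := by rintro ⟨x⟩ ⟨y⟩; rfl
  map_mul' := by rintro ⟨x⟩ ⟨y⟩; rfl
  commutes' c := g.commutes c

theorem Push.lift_inl (g h : B →ₐ[k] C) (hg : IsP q r g) (hh : IsP q r h)
    (e : g.comp f = h.comp f) : (Push.lift r g h hg hh e).comp (Push.inl q f) = g := rfl

theorem Push.lift_inr (g h : B →ₐ[k] C) (hg : IsP q r g) (hh : IsP q r h)
    (e : g.comp f = h.comp f) : (Push.lift r g h hg hh e).comp (Push.inr q f) = h := rfl

theorem Push.isP_lift (g h : B →ₐ[k] C) (hg : IsP q r g) (hh : IsP q r h)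
    (e : g.comp f = h.comp f) : IsP (Push.poisson q f) r (Push.lift r g h hg hh e) := by
  rintro ⟨x⟩ ⟨y⟩; rfl

omit r in
theorem Push.hom_ext {r : Poisson k C} {φ ψ : Push q f →ₐ[k] C}
    (hφ : IsP (Push.poisson q f) r φ) (hψ : IsP (Push.poisson q f) r ψ)
    (el : φ.comp (Push.inl q f) = ψ.comp (Push.inl q f))
    (er : φ.comp (Push.inr q f) = ψ.comp (Push.inr q f)) : φ = ψ := by
  ext x
  induction x using Push.induction with
  | hl b => exact DFunLike.congr_fun el b
  | hr b => exact DFunLike.congr_fun er b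
  | ha x y hx hy => rw [map_add, map_add, hx, hy]
  | hm x y hx hy => rw [map_mul, map_mul, hx, hy]
  | hb x y hx hy => rw [hφ, hψ, hx, hy]

end lift

end Poisson

end R641.PH
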